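import Pool.Agent.P.MP_26ad15_nt.Q.D

/-! General estimate for interpolation determinants and the count of weights. -/

namespace Pool.Agent.P.MP_26ad15_nt.Q

open Polynomial Filter Topology

theorem det_le_fin {ι Γ : Type*} [Fintype ι] [DecidableEq ι] (S : Finset Γ) (R : ι → Γ → ℂ)
    (Cc : Γ → ι → ℂ) (wt : Γ → ℝ) {Ξ Φ : ℝ}
    (hΞ : ∀ i j, ∑ γ ∈ S, ‖R i γ‖ * ‖Cc γ j‖ * Real.exp (wt γ) ≤ Ξ)
    (hΦ : ∀ g : ι → Γ, Function.Injective g → Φ ≤ ∑ j, wt (g j)) :
    ‖(Matrix.of fun i j => ∑ γ ∈ S, R i γ * Cc γ j).det‖ ≤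
      (Fintype.card ι).factorial * Ξ ^ Fintype.card ι * Real.exp (-Φ) := by
  classical
  have h1 : (Matrix.of fun i j => ∑ γ ∈ S, R i γ * Cc γ j).det =
      ∑ g ∈ Fintype.piFinset fun _ : ι => S,
        ∑ π : Equiv.Perm ι, Equiv.Perm.sign π • ∏ j, R (π j) (g j) * Cc (g j) j := by
    rw [Matrix.det_apply, Finset.sum_comm]
    refine Finset.sum_congr rfl fun π _ => ?_
    simp only [Matrix.of_apply]
    rw [Finset.prod_univ_sum, Finset.smul_sum]
  have h2 : ∀ g : ι → Γ,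
      ‖∑ π : Equiv.Perm ι, Equiv.Perm.sign π • ∏ j, R (π j) (g j) * Cc (g j) j‖ ≤
        ∑ π : Equiv.Perm ι, (∏ j, ‖R (π j) (g j)‖ * ‖Cc (g j) j‖ * Real.exp (wt (g j))) *
          Real.exp (-Φ) := by
    intro g
    by_cases hg : Function.Injective g
    · refine (norm_sum_le _ _).trans (Finset.sum_le_sum fun π _ => ?_)
      have hs : ‖Equiv.Perm.sign π • ∏ j, R (π j) (g j) * Cc (g j) j‖ =
          ∏ j, ‖R (π j) (g j)‖ * ‖Cc (g j) j‖ := by
        rcases Int.units_eq_one_or (Equiv.Perm.sign π) with h | h <;> simp [h]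
      rw [hs, Finset.prod_mul_distrib (g := fun j => Real.exp (wt (g j))), ← Real.exp_sum,
        mul_assoc, ← Real.exp_add]
      refine le_mul_of_one_le_right (Finset.prod_nonneg fun _ _ => by positivity) ?_
      exact Real.one_le_exp (by linarith [hΦ g hg])
    · have h0 : ∑ π : Equiv.Perm ι, Equiv.Perm.sign π • ∏ j, R (π j) (g j) * Cc (g j) j =
          (Matrix.of fun i j => R i (g j)).det * ∏ j, Cc (g j) j := by
        rw [Matrix.det_apply, Finset.sum_mul]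
        refine Finset.sum_congr rfl fun π _ => ?_
        rw [Finset.prod_mul_distrib, smul_mul_assoc]
        rfl
      obtain ⟨a, b, hab, hne⟩ := Function.not_injective_iff.1 hg
      rw [h0, Matrix.det_zero_of_column_eq hne fun k => by simp [hab], zero_mul, norm_zero]
      positivity
  rw [h1]
  refine (norm_sum_le _ _).trans ((Finset.sum_le_sum fun g _ => h2 g).trans ?_)
  rw [Finset.sum_comm, mul_assoc, ← Fintype.card_perm, ← Finset.card_univ, ← nsmul_eq_mul]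
  refine Finset.sum_le_card_nsmul _ _ _ fun π _ => ?_
  rw [← Finset.sum_mul, ← Finset.prod_univ_sum (fun _ : ι => S)
    fun j γ => ‖R (π j) γ‖ * ‖Cc γ j‖ * Real.exp (wt γ)]
  gcongr
  rw [← Finset.card_univ, ← Finset.prod_const]
  exact Finset.prod_le_prod (fun j _ => by positivity) fun j _ => hΞ _ _

theorem det_le {ι Γ : Type*} [Fintype ι] [DecidableEq ι] (M : ι → ι → ℂ) (R : ι → Γ → ℂ)
    (Cc : Γ → ι → ℂ) (wt : Γ → ℝ) {Ξ Φ : ℝ}
    (hM : ∀ i j, HasSum (fun γ => R i γ * Cc γ j) (M i j))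
    (hΞ : ∀ i j, ∀ S : Finset Γ, ∑ γ ∈ S, ‖R i γ‖ * ‖Cc γ j‖ * Real.exp (wt γ) ≤ Ξ)
    (hΦ : ∀ g : ι → Γ, Function.Injective g → Φ ≤ ∑ j, wt (g j)) :
    ‖(Matrix.of M).det‖ ≤ (Fintype.card ι).factorial * Ξ ^ Fintype.card ι * Real.exp (-Φ) := by
  have h1 : Tendsto (fun S : Finset Γ => (Matrix.of fun i j => ∑ γ ∈ S, R i γ * Cc γ j))
      atTop (𝓝 (Matrix.of M)) :=
    tendsto_pi_nhds.2 fun i => tendsto_pi_nhds.2 fun j => hM i j
  have h2 := ((continuous_id.matrix_det.norm).tendsto _).comp h1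
  exact le_of_tendsto' h2 fun S => det_le_fin S R Cc wt (fun i j => hΞ i j S) hΦ

theorem sum_pos_le {y Λ : ℝ} (hy : 0 ≤ y) (hΛ : 0 < Λ) (I : Finset ℕ) :
    ∑ i ∈ I, max (y - i * Λ) 0 ≤ y ^ 2 / (2 * Λ) + y := by
  have key : ∀ K : ℕ, ∑ i ∈ Finset.range (K + 1), max (y - i * Λ) 0 ≤
      y + (y ^ 2 - max (y - K * Λ) 0 ^ 2) / (2 * Λ) := by
    intro K
    induction K with
    | zero => simp [hy]
    | succ K ih =>
      rw [Finset.sum_range_succ]
      have h : max (y - ((K + 1 : ℕ) : ℝ) * Λ) 0 ≤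
          (max (y - K * Λ) 0 ^ 2 - max (y - ((K + 1 : ℕ) : ℝ) * Λ) 0 ^ 2) / (2 * Λ) := by
        rw [le_div_iff₀ (by positivity)]
        push_cast
        rcases le_total (y - (K + 1) * Λ) 0 with h | h
        · rw [max_eq_right h]
          nlinarith [sq_nonneg (max (y - K * Λ) 0)]
        · rw [max_eq_left h, max_eq_left (by linarith)]
          nlinarith
      have e : (y ^ 2 - max (y - ((K + 1 : ℕ) : ℝ) * Λ) 0 ^ 2) / (2 * Λ) =
          (y ^ 2 - max (y - K * Λ) 0 ^ 2) / (2 * Λ) +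
          (max (y - K * Λ) 0 ^ 2 - max (y - ((K + 1 : ℕ) : ℝ) * Λ) 0 ^ 2) / (2 * Λ) := by ring
      linarith
  obtain ⟨K, hK⟩ := Finset.exists_nat_subset_range I
  have h1 : ∑ i ∈ I, max (y - i * Λ) 0 ≤ ∑ i ∈ Finset.range (K + 1), max (y - i * Λ) 0 :=
    Finset.sum_le_sum_of_subset_of_nonneg (hK.trans (Finset.range_subset_range.2 K.le_succ))
      fun _ _ _ => le_max_right _ _
  have h2 : (y ^ 2 - max (y - K * Λ) 0 ^ 2) / (2 * Λ) ≤ y ^ 2 / (2 * Λ) := by
    gcongr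
    linarith [sq_nonneg (max (y - K * Λ) 0)]
  linarith [key K]

/-- the weight of a monomial in the three expansions -/
def wt3 (Λ W : ℝ) (γ : ℕ × ℕ × ℕ) : ℝ := γ.1 * Λ + ((γ.2.1 + γ.2.2 : ℕ) : ℝ) * W

theorem weight_ge {ι : Type*} [Fintype ι] {Λ W x : ℝ} {K : ℕ} (hΛ : 0 < Λ) (hW : 0 ≤ W)
    (hx : x ≤ K) (g : ι → ℕ × ℕ × ℕ) (hg : Function.Injective g) :
    Fintype.card ι * x * W - Gf x K * W ^ 2 / Λ - K ^ 3 * W ≤ ∑ j, wt3 Λ W (g j) := by
  classical
  set f : ℕ × ℕ × ℕ → ℝ := fun γ => max (x * W - wt3 Λ W γ) 0 with hf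
  have hf0 : ∀ γ, 0 ≤ f γ := fun γ => le_max_right _ _
  set S := Finset.univ.image g with hS
  have h1 : Fintype.card ι * x * W - ∑ γ ∈ S, f γ ≤ ∑ j, wt3 Λ W (g j) := by
    rw [hS, Finset.sum_image fun a _ b _ h => hg h, mul_assoc, ← Finset.card_univ,
      ← nsmul_eq_mul, ← Finset.sum_const, ← Finset.sum_sub_distrib]
    refine Finset.sum_le_sum fun j _ => ?_
    have := le_max_left (x * W - wt3 Λ W (g j)) 0
    simp only [hf]
    linarith
  have h2 : ∑ γ ∈ S, f γ ≤ ∑ γ ∈ (S.image Prod.fst) ×ˢ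
      ((Finset.range K).biUnion Finset.HasAntidiagonal.antidiagonal), f γ := by
    rw [← Finset.sum_filter_ne_zero S]
    refine Finset.sum_le_sum_of_subset_of_nonneg (fun γ hγ' => ?_) fun γ _ _ => hf0 γ
    obtain ⟨hγ, h0⟩ := Finset.mem_filter.1 hγ'
    refine Finset.mem_product.2 ⟨Finset.mem_image_of_mem _ hγ, Finset.mem_biUnion.2
      ⟨γ.2.1 + γ.2.2, Finset.mem_range.2 ?_, Finset.HasAntidiagonal.mem_antidiagonal.2 rfl⟩⟩
    by_contra hn
    apply h0
    have h3 : (K : ℝ) ≤ ((γ.2.1 + γ.2.2 : ℕ) : ℝ) := by exact_mod_cast not_lt.1 hn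
    refine max_eq_right ?_
    have h4 := mul_le_mul_of_nonneg_right (hx.trans h3) hW
    have h5 : 0 ≤ (γ.1 : ℝ) * Λ := by positivity
    unfold wt3
    linarith
  have h3 : ∑ γ ∈ (S.image Prod.fst) ×ˢ ((Finset.range K).biUnion Finset.HasAntidiagonal.antidiagonal), f γ ≤
      ∑ s ∈ Finset.range K, ((s : ℝ) + 1) *
        ((max (x - s) 0 * W) ^ 2 / (2 * Λ) + max (x - s) 0 * W) := by
    rw [Finset.sum_product_right, Finset.sum_biUnion]
    · refine Finset.sum_le_sum fun s _ => ?_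
      have hc : ((s : ℝ) + 1) = ((Finset.HasAntidiagonal.antidiagonal s).card : ℝ) := by
        rw [Finset.Nat.card_antidiagonal]; push_cast; rfl
      rw [hc, ← nsmul_eq_mul]
      refine Finset.sum_le_card_nsmul _ _ _ fun ab hab => ?_
      refine le_trans (Finset.sum_le_sum fun i _ => ?_)
        (sum_pos_le (mul_nonneg (le_max_right _ _) hW) hΛ (S.image Prod.fst))
      refine max_le_max_right _ ?_
      have h4 := mul_le_mul_of_nonneg_right (le_max_left (x - s) 0) hW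
      simp only [wt3, Finset.HasAntidiagonal.mem_antidiagonal.1 hab]
      linarith
    · intro a _ b _ hab
      refine Finset.disjoint_left.2 fun z h1 h2 => hab ?_
      rw [← Finset.HasAntidiagonal.mem_antidiagonal.1 h1, Finset.HasAntidiagonal.mem_antidiagonal.1 h2]
  have h4 : ∑ s ∈ Finset.range K, ((s : ℝ) + 1) *
      ((max (x - s) 0 * W) ^ 2 / (2 * Λ) + max (x - s) 0 * W) ≤
        Gf x K * W ^ 2 / Λ + K ^ 3 * W := by
    simp only [mul_add, Finset.sum_add_distrib]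
    refine add_le_add (le_of_eq ?_) ?_
    · rw [Gf, Finset.sum_mul, Finset.sum_div]
      refine Finset.sum_congr rfl fun s _ => ?_
      field_simp
    · refine (Finset.sum_le_card_nsmul _ _ ((K : ℝ) * (K * W)) fun s hs => ?_).trans (le_of_eq ?_)
      · have h5 : (s : ℝ) + 1 ≤ K := by exact_mod_cast Finset.mem_range.1 hs
        have h6 : max (x - s) 0 ≤ K := max_le (by linarith [Nat.cast_nonneg (α := ℝ) s])
          (Nat.cast_nonneg _)
        gcongr
      · rw [Finset.card_range, nsmul_eq_mul]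
        ring
  linarith

end Pool.Agent.P.MP_26ad15_nt.Q
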