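import Pool.Agent.P.MP_26ad15_nt.Q.A1

/-! Expansion of the entries and the analytic estimate near a small point. -/

namespace Pool.Agent.P.MP_26ad15_nt.Q

open Polynomial Filter Topology

theorem hasSum_cexp (x : ℂ) : HasSum (fun j : ℕ => x ^ j / j.factorial) (Complex.exp x) := by
  rw [Complex.exp_eq_exp_ℂ]
  exact NormedSpace.expSeries_div_hasSum_exp x

theorem hasSum_rexp (x : ℝ) : HasSum (fun j : ℕ => x ^ j / j.factorial) (Real.exp x) := by
  rw [Real.exp_eq_exp_ℝ]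
  exact NormedSpace.expSeries_div_hasSum_exp x

theorem hs_congr {ι 𝕜 : Type*} [RCLike 𝕜] {f g : ι → 𝕜} {a b : 𝕜} (h : HasSum f a)
    (hf : ∀ i, g i = f i) (ha : b = a) : HasSum g b := by
  rw [ha, funext hf]
  exact h

theorem hs_mul {ι κ 𝕜 : Type*} [RCLike 𝕜] {f : ι → 𝕜} {g : κ → 𝕜} {a b : 𝕜} (h : HasSum f a)
    (h' : HasSum g b) : HasSum (fun x : ι × κ => f x.1 * g x.2) (a * b) :=
  h.mul h' (summable_mul_of_summable_norm (summable_norm_iff.2 h.summable)
    (summable_norm_iff.2 h'.summable))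

theorem hasSum_Dop (x w : ℂ) (t : ℕ) (f : ℂ[X]) :
    HasSum (fun j : ℕ => x ^ j / j.factorial * (derivative^[t] (X ^ j * f)).eval w)
      (((Dop 1 x ^ t) f).eval w * Complex.exp (x * w)) := by
  induction t generalizing f with
  | zero =>
    refine hs_congr ((hasSum_cexp (x * w)).mul_left (f.eval w)) (fun j => ?_) ?_
    · simp [mul_pow]
      ring
    · simp
  | succ t ih =>
    have h1 := ih (derivative f)
    have h2 := (ih f).mul_left x
    have h3 : HasSum (fun j : ℕ => x ^ j / j.factorial *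
        (derivative^[t] (derivative (X ^ j : ℂ[X]) * f)).eval w)
        (x * (((Dop 1 x ^ t) f).eval w * Complex.exp (x * w))) := by
      rw [← hasSum_nat_add_iff' 1]
      refine hs_congr h2 (fun j => ?_) ?_
      · rw [derivative_X_pow_succ, mul_assoc (C _), iterate_derivative_C_mul, eval_mul, eval_C,
          Nat.factorial_succ]
        have : ((j : ℂ) + 1) ≠ 0 := by exact_mod_cast j.succ_ne_zero
        push_cast
        field_simp
        ring
      · simp
    refine hs_congr (h3.add h1) (fun j => ?_) ?_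
    · rw [Function.iterate_succ_apply, derivative_mul, iterate_map_add, eval_add, mul_add]
    · rw [pow_succ, Module.End.mul_apply, Dop_apply, one_mul, map_add, ← smul_eq_C_mul, map_smul,
        eval_add, eval_smul, smul_eq_mul]
      ring

/-- row factor -/
noncomputable def R1 (t : ℕ) (w : ℂ) (i : ℕ) : ℂ := (i.descFactorial t : ℂ) * w ^ (i - t)

/-- column factor -/
noncomputable def C1 (l : ℕ) (x : ℂ) (i : ℕ) : ℂ :=
  if l ≤ i then x ^ (i - l) / (i - l).factorial else 0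

theorem hasSum_ent (t l : ℕ) (x w : ℂ) :
    HasSum (fun i => R1 t w i * C1 l x i) (ent t l x 1 w * Complex.exp (x * w)) := by
  rw [← hasSum_nat_add_iff' l, ← eval_Dop_pow]
  refine hs_congr (hasSum_Dop x w t (X ^ l)) (fun j => ?_) ?_
  · rw [← pow_add, iterate_derivative_X_pow_eq_smul, R1, C1, if_pos (Nat.le_add_left _ _),
      Nat.add_sub_cancel]
    simp [mul_comm]
  · rw [Finset.sum_eq_zero, sub_zero]
    intro i hi
    rw [C1, if_neg (not_le.2 (Finset.mem_range.1 hi)), mul_zero]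

theorem majorant {t l : ℕ} {x w : ℂ} {ρ Y : ℝ} (hρ : 0 ≤ ρ) (hY : 1 ≤ Y) (hw : ‖w‖ ≤ Y) :
    ∃ m : ℕ → ℝ, (∀ i, ‖R1 t w i‖ * ‖C1 l x i‖ * ρ ^ i ≤ m i) ∧
      HasSum m (t.factorial * (2 * ρ * Y) ^ l * Real.exp (2 * ρ * Y * ‖x‖)) := by
  refine ⟨fun i => if l ≤ i then t.factorial * (2 * ρ * Y) ^ l *
    ((2 * ρ * Y * ‖x‖) ^ (i - l) / (i - l).factorial) else 0, fun i => ?_, ?_⟩
  · simp only [C1]
    split_ifs with h
    · obtain ⟨j, rfl⟩ := Nat.exists_eq_add_of_le h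
      have h1 : (((l + j).descFactorial t : ℕ) : ℝ) ≤ t.factorial * 2 ^ (l + j) := by
        rw [Nat.descFactorial_eq_factorial_mul_choose]
        exact_mod_cast Nat.mul_le_mul_left _ (Nat.choose_le_two_pow _ _)
      have h2 : ‖w‖ ^ (l + j - t) ≤ Y ^ (l + j) :=
        (pow_le_pow_left₀ (norm_nonneg _) hw _).trans (pow_le_pow_right₀ hY (Nat.sub_le _ _))
      simp only [R1, norm_mul, norm_pow, norm_div, Complex.norm_natCast, Nat.add_sub_cancel_left]
      calc _ ≤ (t.factorial * 2 ^ (l + j)) * Y ^ (l + j) * (‖x‖ ^ j / j.factorial) *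
            ρ ^ (l + j) := by gcongr
        _ = _ := by simp only [mul_pow, pow_add]; ring
    · simp
  · rw [← hasSum_nat_add_iff' l]
    refine hs_congr ((hasSum_rexp (2 * ρ * Y * ‖x‖)).mul_left (t.factorial * (2 * ρ * Y) ^ l))
      (fun j => ?_) ?_
    · rw [if_pos (Nat.le_add_left _ _), Nat.add_sub_cancel]
    · rw [Finset.sum_eq_zero, sub_zero]
      intro i hi
      rw [if_neg (not_le.2 (Finset.mem_range.1 hi))]

/-- row factor of the triple expansion -/
noncomputable def R3 (t : ℕ) (w w' : ℂ) (γ : ℕ × ℕ × ℕ) : ℂ :=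
  R1 t w γ.1 * (w ^ γ.2.1 * w' ^ γ.2.2)

/-- column factor of the triple expansion -/
noncomputable def C3 (l : ℕ) (x y y' : ℂ) (γ : ℕ × ℕ × ℕ) : ℂ :=
  C1 l x γ.1 * (y ^ γ.2.1 / γ.2.1.factorial * (y' ^ γ.2.2 / γ.2.2.factorial))

theorem hasSum_three (t l : ℕ) (x y y' w w' : ℂ) :
    HasSum (fun γ => R3 t w w' γ * C3 l x y y' γ)
      (ent t l x 1 w * Complex.exp (x * w) * (Complex.exp (y * w) * Complex.exp (y' * w'))) := by
  have h1 := hasSum_ent t l x w
  have h2 := hasSum_cexp (y * w)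
  have h3 := hasSum_cexp (y' * w')
  refine hs_congr (hs_mul h1 (hs_mul h2 h3)) (fun γ => ?_) rfl
  simp only [R3, C3, mul_pow]
  ring

theorem sum_three_le {t l : ℕ} {x y y' w w' : ℂ} {Λ W Y : ℝ} (hY : 1 ≤ Y) (hw : ‖w‖ ≤ Y)
    (S : Finset (ℕ × ℕ × ℕ)) :
    ∑ γ ∈ S, ‖R3 t w w' γ‖ * ‖C3 l x y y' γ‖ * Real.exp (wt3 Λ W γ) ≤
      t.factorial * (2 * Real.exp Λ * Y) ^ l * Real.exp (2 * Real.exp Λ * Y * ‖x‖) *
        (Real.exp (‖y‖ * ‖w‖ * Real.exp W) * Real.exp (‖y'‖ * ‖w'‖ * Real.exp W)) := by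
  obtain ⟨m, hm, hs⟩ := majorant (t := t) (l := l) (x := x) (Real.exp_pos Λ).le hY hw
  have hm0 : ∀ i, 0 ≤ m i := fun i => le_trans (by positivity) (hm i)
  have h2 := hasSum_rexp (‖y‖ * ‖w‖ * Real.exp W)
  have h3 := hasSum_rexp (‖y'‖ * ‖w'‖ * Real.exp W)
  have h5 := hs_mul hs (hs_mul h2 h3)
  refine le_trans (Finset.sum_le_sum fun γ _ => ?_)
    (sum_le_hasSum S (fun γ _ => mul_nonneg (hm0 _) (by positivity)) h5)
  refine le_trans (le_of_eq ?_) (mul_le_mul_of_nonneg_right (hm γ.1) (by positivity))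
  simp only [R3, C3, wt3, norm_mul, norm_pow, norm_div, Complex.norm_natCast, Real.exp_add,
    Nat.cast_add, add_mul, Real.exp_nat_mul, mul_pow]
  ring

end Pool.Agent.P.MP_26ad15_nt.Q
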