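import Pool.Agent.P.MP_26ad15_nt.Q.A2

/-! The analytic estimate for the determinant near a small point. -/

namespace Pool.Agent.P.MP_26ad15_nt.Q

open Polynomial Complex

theorem mu_mul_pt {c p q : ℤ} {b : ℂ} (hb : c * b * (p - b) = q) (μ w : ℤ × ℤ) :
    mu b μ * pt c (p - b) w = cz c p q μ w + kk c μ w * b := by
  simp only [mu, pt, cz, kk]
  push_cast
  linear_combination (-(μ.2 * w.2 : ℂ)) * hb

theorem mu_mul_pt' {c p q : ℤ} {b : ℂ} (hb : c * b * (p - b) = q) (μ w : ℤ × ℤ) :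
    mu (p - b) μ * pt c b w = cz c p q μ w + kk c μ w * (p - b) := by
  simp only [mu, pt, cz, kk]
  push_cast
  linear_combination (-(μ.2 * w.2 : ℂ)) * hb

theorem near_bounds {A u α : ℂ} {W : ℝ} (h3 : ‖u‖ = 1) (hW : 1 ≤ W)
    (hα : ‖α - u‖ ≤ Real.exp (-W)) :
    α ≠ 0 ∧ ‖α‖ ≤ 2 ∧ ‖A * (α - α⁻¹)‖ ≤ 4 * ‖A‖ ∧
      ‖A * (u - u⁻¹) - A * (α - α⁻¹)‖ ≤ 3 * ‖A‖ * Real.exp (-W) ∧
      ‖log (α / u)‖ ≤ 2 * Real.exp (-W) := by
  have he : Real.exp (-W) ≤ 1 / 2 := by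
    have h1 : Real.exp (-W) ≤ Real.exp (-1) := Real.exp_le_exp.2 (by linarith)
    have h2 := Real.exp_neg_one_lt_d9
    linarith
  have hu : u ≠ 0 := by
    rintro rfl
    simp at h3
  have h5 : 1 / 2 ≤ ‖α‖ := by
    have := norm_sub_norm_le u α
    rw [norm_sub_rev] at this
    linarith
  have h6 : ‖α‖ ≤ 2 := by
    have := norm_sub_norm_le α u
    linarith
  have hα0 : α ≠ 0 := by
    rintro rfl
    norm_num at h5
  have h7 : ‖α⁻¹‖ ≤ 2 := by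
    rw [norm_inv]
    exact inv_le_of_inv_le₀ (by norm_num) (by linarith)
  refine ⟨hα0, h6, ?_, ?_, ?_⟩
  · rw [norm_mul, mul_comm]
    gcongr
    linarith [norm_sub_le α α⁻¹]
  · have e : A * (u - u⁻¹) - A * (α - α⁻¹) = -(A * ((α - u) * (1 + α⁻¹ * u⁻¹))) := by
      field_simp
      ring
    have h8 : ‖1 + α⁻¹ * u⁻¹‖ ≤ 3 := by
      refine (norm_add_le _ _).trans ?_
      rw [norm_one, norm_mul, norm_inv u, h3]
      linarith
    rw [e, norm_neg, norm_mul, norm_mul]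
    calc _ ≤ ‖A‖ * (Real.exp (-W) * 3) := by gcongr
      _ = _ := by ring
  · have e : α / u = 1 + (α - u) / u := by field_simp; ring
    have h8 : ‖(α - u) / u‖ ≤ Real.exp (-W) := by rwa [norm_div, h3, div_one]
    rw [e]
    refine (norm_log_one_add_half_le_self (h8.trans he)).trans ?_
    linarith [Real.exp_pos (-W)]

theorem det_me_le {ι : Type*} [Fintype ι] [DecidableEq ι] {c p q : ℤ} {b A lam u α : ℂ}
    (hb : c * b * (p - b) = q) (h1 : exp lam = -1) (h2 : u = exp (lam * b)) (h3 : ‖u‖ = 1)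
    (h4 : lam = A * (u - u⁻¹)) {K n W x : ℝ} {K0 T L : ℕ} (hbb : b ≠ p - b)
    (hK : 4 * ‖A‖ + 2 / ‖b - (p - b)‖ ≤ K) (hK1 : 1 ≤ K) (hn : 1 < n) (hW : 1 ≤ W)
    (hα : ‖α - u‖ ≤ Real.exp (-W)) (hx : x ≤ K0) {r s : ι → Ix}
    (hr : ∀ i, ‖pt c (p - b) (r i).1‖ ≤ K * n ∧ ‖pt c b (r i).1‖ ≤ K * n ∧ (r i).2 ≤ T)
    (hs : ∀ i, ‖mu b (s i).1‖ ≤ K * n ∧ ‖mu (p - b) (s i).1‖ ≤ K * n ∧ (s i).2 ≤ L) :
    ‖(Matrix.of fun i j => me c p q b A α (r i) (s j)).det‖ ≤ (Fintype.card ι).factorial *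
      (T.factorial * (2 * K * n ^ 3) ^ L * Real.exp (4 * K ^ 3 * n ^ 4)) ^ Fintype.card ι *
      Real.exp (-(Fintype.card ι * x * W - Gf x K0 * W ^ 2 / (2 * Real.log n) - K0 ^ 3 * W)) := by
  obtain ⟨hα0, -, hl, hd, hlog⟩ := near_bounds (A := A) h3 hW hα
  have hu : u ≠ 0 := h2 ▸ exp_ne_zero _
  have hδ : b - (p - b) ≠ 0 := sub_ne_zero.2 hbb
  set z := log (α / u) with hz
  set lt := A * (α - α⁻¹) with hlt
  set η₁ := lam - lt + z / (b - (p - b)) with hη₁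
  set η₂ := -(z / (b - (p - b))) with hη₂
  have hαe : α = exp (lam * b + z) := by
    rw [exp_add, ← h2, hz, exp_log (div_ne_zero hα0 hu)]
    field_simp
  have hA0 := norm_nonneg A
  have hq0 : 0 ≤ 2 / ‖b - (p - b)‖ := by positivity
  have hE := Real.exp_pos (-W)
  have hη₂' : ‖η₂‖ ≤ 2 / ‖b - (p - b)‖ * Real.exp (-W) := by
    rw [hη₂, norm_neg, norm_div, div_mul_eq_mul_div]
    gcongr
  have hη₁' : ‖η₁‖ ≤ K * Real.exp (-W) := by
    have h5 : ‖η₁‖ ≤ ‖lam - lt‖ + ‖η₂‖ := by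
      rw [hη₂, norm_neg]
      exact norm_add_le _ _
    rw [← h4] at hd
    nlinarith
  have hη₂'' : ‖η₂‖ ≤ K * Real.exp (-W) := hη₂'.trans (by gcongr; linarith)
  have hlK : ‖lt‖ ≤ K := by linarith
  have hlog0 : 0 < Real.log n := Real.log_pos hn
  have hKn : 1 ≤ K * n := one_le_mul_of_one_le_of_one_le hK1 hn.le
  have hρ : Real.exp (2 * Real.log n) = n ^ 2 := by
    rw [two_mul, Real.exp_add, Real.exp_log (by linarith), sq]
  refine det_le _ (fun i => R3 (r i).2 (pt c (p - b) (r i).1) (pt c b (r i).1))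
    (fun γ j => C3 (s j).2 (lt * mu b (s j).1) (η₁ * mu b (s j).1) (η₂ * mu (p - b) (s j).1) γ)
    (wt3 (2 * Real.log n) W) (fun i j => ?_) (fun i j S => ?_)
    (weight_ge (by positivity) (by linarith) hx)
  · refine hs_congr (hasSum_three _ _ _ _ _ _ _) (fun _ => rfl) ?_
    rw [me, mul_assoc (ent _ _ _ _ _), ← exp_add, ← exp_add, BB, ← h1]
    congr 1
    have e1 := mu_mul_pt hb (s j).1 (r i).1
    have e2 := mu_mul_pt' hb (s j).1 (r i).1
    conv_lhs => rw [hαe, ← exp_int_mul, ← exp_int_mul, ← exp_add]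
    congr 1
    rw [mul_assoc lt, mul_assoc η₁, mul_assoc η₂, e1, e2, hη₁, hη₂]
    field_simp
    ring
  · obtain ⟨r1, r2, r3⟩ := hr i
    obtain ⟨s1, s2, s3⟩ := hs j
    refine (sum_three_le hKn r1 S).trans ?_
    have hEW : Real.exp (-W) * Real.exp W = 1 := by rw [← Real.exp_add]; simp
    have b1 : ∀ {η m w : ℂ}, ‖η‖ ≤ K * Real.exp (-W) → ‖m‖ ≤ K * n → ‖w‖ ≤ K * n →
        ‖η * m‖ * ‖w‖ * Real.exp W ≤ K ^ 3 * n ^ 4 := by
      intro η m w a1 a2 a3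
      rw [norm_mul]
      calc _ ≤ K * Real.exp (-W) * (K * n) * (K * n) * Real.exp W := by gcongr
        _ = K ^ 3 * n ^ 2 * (Real.exp (-W) * Real.exp W) := by ring
        _ ≤ _ := by
          rw [hEW, mul_one]
          gcongr
          · exact hn.le
          · norm_num
    have b2 : 2 * K * n ^ 3 * ‖lt * mu b (s j).1‖ ≤ 2 * K ^ 3 * n ^ 4 := by
      rw [norm_mul]
      calc _ ≤ 2 * K * n ^ 3 * (K * (K * n)) := by gcongr
        _ = _ := by ring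
    have b3 : 1 ≤ 2 * K * n ^ 3 := by
      have := one_le_mul_of_one_le_of_one_le hK1 (one_le_pow₀ (n := 3) hn.le)
      linarith
    rw [hρ, mul_assoc, ← Real.exp_add, ← Real.exp_add,
      show 2 * n ^ 2 * (K * n) = 2 * K * n ^ 3 by ring]
    gcongr
    linarith [b1 hη₁' s1 r1, b1 hη₂'' s2 r2]

end Pool.Agent.P.MP_26ad15_nt.Q
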