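import Pool.Agent.P.MP_26ad15_nt.Q.N1

/-! Numerical inequalities for the parameters. -/

namespace Pool.Agent.P.MP_26ad15_nt.Q

open Real

theorem le_exp' (x : ℝ) : x ≤ exp x := by linarith [add_one_le_exp x]

theorem pow_le_exp {a b : ℝ} (ha : 0 ≤ a) (h : a ≤ exp b) (k : ℕ) : a ^ k ≤ exp (k * b) := by
  rw [exp_nat_mul]
  gcongr

theorem fact_le_exp {N : ℕ} {b : ℝ} (h : (N : ℝ) ≤ exp b) : (N.factorial : ℝ) ≤ exp (N * b) :=
  le_trans (by exact_mod_cast Nat.factorial_le_pow N) (pow_le_exp (Nat.cast_nonneg _) h N)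

theorem Dsq_le {D x : ℝ} (hD0 : 0 ≤ D) (hD : D ≤ 27000 * x) (hx : 1 ≤ x) :
    D ^ 2 ≤ exp (54002 * x) := by
  have h1 : D ≤ exp (27001 * x) := (hD.trans (by linarith)).trans (le_exp' _)
  refine (pow_le_exp hD0 h1 2).trans (le_of_eq ?_)
  congr 1
  push_cast
  ring

theorem H_bound {N E : ℕ} {D L K n : ℝ} (hD0 : 0 ≤ D) (hD : D ≤ 27000 * (N * L)) (hN : 1 ≤ N)
    (hL : 1 ≤ L) (hNL : N ≤ 33000 * L ^ 2) (hE : E ≤ 1002 / 1000 * (N * L)) (hK : 1 ≤ K)
    (hn : 1 ≤ n) : D ^ 2 * (N.factorial * (2 * K * n) ^ E) ≤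
      exp (N * L * (1002 / 1000 * log n + 10 ^ 5 * K)) := by
  have hN' : (1 : ℝ) ≤ N := by exact_mod_cast hN
  have hx : 1 ≤ N * L := one_le_mul_of_one_le_of_one_le hN' hL
  have h1 := Dsq_le hD0 hD hx
  have h2 : (N : ℝ) ≤ exp (33002 * L) := by
    refine hNL.trans ?_
    rw [show 33002 * L = 33000 * L + (2 : ℕ) * L by push_cast; ring, exp_add]
    exact mul_le_mul (le_trans (by linarith) (le_exp' _))
      (pow_le_exp (by linarith) (le_exp' _) 2) (by positivity) (exp_pos _).le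
  have h3 : 2 * K * n ≤ exp (2 * K + log n) := by
    rw [exp_add, exp_log (by linarith)]
    gcongr
    exact le_exp' _
  have hl := log_nonneg hn
  calc _ ≤ exp (54002 * (N * L)) * (exp (N * (33002 * L)) * exp (E * (2 * K + log n))) := by
        gcongr
        · exact fact_le_exp h2
        · exact pow_le_exp (by positivity) h3 E
    _ ≤ _ := by
        rw [← exp_add, ← exp_add, exp_le_exp]
        have h4 : E * (2 * K + log n) ≤ 1002 / 1000 * (N * L) * (2 * K + log n) := by gcongr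
        nlinarith

theorem S_bound {N D E T L k : ℕ} {K n v x G g e a : ℝ} (hD : 2 * D ≤ 27000 * ((N : ℝ) * L))
    (hL : 1 ≤ L) (hE : E ≤ 2 * ((N : ℝ) * L)) (hT : T ≤ 2 * L) (hL2 : (L : ℝ) ^ 2 ≤ N)
    (hLn : L * n ≤ N) (hn4 : n ^ 4 ≤ 1000 * N) (hK : 1 ≤ K) (hn : 1 < n) (hk : k ≤ 48)
    (hv0 : 0 ≤ v) (hv : v ≤ 1) (hg : g + 8 / 10 ^ 6 ≤ x * v - G * v ^ 2) (he0 : 0 ≤ e)
    (he : e ≤ K) (ha0 : 0 ≤ a) (ha : a ≤ 2) (hl : 2 * 10 ^ 10 * K ^ 3 ≤ log n) :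
    ((2 * D : ℕ) : ℝ) ^ 2 * (a ^ D * e ^ E * (N.factorial *
      (T.factorial * (2 * K * n ^ 3) ^ L * exp (4 * K ^ 3 * n ^ 4)) ^ N *
      exp (-(N * x * (v * (N * (2 * log n))) - G * (v * (N * (2 * log n))) ^ 2 / (2 * log n) -
        k ^ 3 * (v * (N * (2 * log n))))))) ≤ exp (-(N * (2 * log n) * N * g)) := by
  have hL' : (1 : ℝ) ≤ L := by exact_mod_cast hL
  have hLN : (L : ℝ) ≤ N := le_trans (by nlinarith) hL2
  have hN' : (1 : ℝ) ≤ N := hL'.trans hLN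
  have hx : 1 ≤ (N : ℝ) * L := one_le_mul_of_one_le_of_one_le hN' hL'
  have hNL : (N : ℝ) * L ≤ N * N := by gcongr
  have hl0 := log_pos hn
  have hK3 : K ≤ K ^ 3 := le_self_pow₀ hK (by norm_num)
  have h1 := Dsq_le (D := ((2 * D : ℕ) : ℝ)) (Nat.cast_nonneg _) (by push_cast; exact hD) hx
  have h2 : a ^ D ≤ exp (D * 1) :=
    pow_le_exp ha0 (ha.trans (by linarith [add_one_le_exp (1 : ℝ)])) D
  have h3 : e ^ E ≤ exp (E * K) := pow_le_exp he0 (he.trans (le_exp' _)) E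
  have h4 : (N.factorial : ℝ) ≤ exp (N * N) := fact_le_exp (le_exp' _)
  have h5 : (T.factorial : ℝ) ≤ exp (T * T) := fact_le_exp (le_exp' _)
  have h6 : (2 * K * n ^ 3) ^ L ≤ exp (L * (2 * K + (3 : ℕ) * n)) := by
    refine pow_le_exp (by positivity) ?_ L
    rw [exp_add]
    gcongr
    · exact le_exp' _
    · exact pow_le_exp (by linarith) (le_exp' _) 3
  have h7 : T.factorial * (2 * K * n ^ 3) ^ L * exp (4 * K ^ 3 * n ^ 4) ≤
      exp (4009 * K ^ 3 * N) := by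
    refine le_trans (mul_le_mul_of_nonneg_right (mul_le_mul h5 h6 (by positivity) (exp_pos _).le)
      (exp_pos _).le) ?_
    rw [← exp_add, ← exp_add, exp_le_exp]
    have hT' : (T : ℝ) ≤ 2 * L := by exact_mod_cast hT
    have a1 : (T : ℝ) * T ≤ 2 * L * (2 * L) := by gcongr
    have a2 : K ^ 3 * n ^ 4 ≤ K ^ 3 * (1000 * N) := by gcongr
    have a3 : K * L ≤ K ^ 3 * N := by gcongr
    have a4 : (N : ℝ) ≤ K ^ 3 * N := le_mul_of_one_le_left (by positivity) (hK.trans hK3)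
    push_cast
    nlinarith
  have h8 := pow_le_exp (by positivity) h7 N
  refine le_trans (mul_le_mul h1 (mul_le_mul (mul_le_mul h2 h3 (by positivity) (exp_pos _).le)
    (mul_le_mul_of_nonneg_right (mul_le_mul h4 h8 (by positivity) (exp_pos _).le) (exp_pos _).le)
    (by positivity) (by positivity)) (by positivity) (exp_pos _).le) ?_
  simp only [← exp_add, exp_le_exp]
  have e1 : G * (v * (N * (2 * log n))) ^ 2 / (2 * log n) = N * (2 * log n) * N * (G * v ^ 2) := by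
    field_simp
  have hln : log n ≤ N := by
    have := log_le_sub_one_of_pos (zero_lt_one.trans hn)
    nlinarith
  have b1 : (k : ℝ) ^ 3 * (v * (N * (2 * log n))) ≤ 48 ^ 3 * (1 * (N * (2 * N))) := by
    gcongr
    exact_mod_cast hk
  have b2 : E * K ≤ 2 * (N * N) * K ^ 3 := by gcongr; linarith
  have b3 : N * (2 * log n) * N * (g + 8 / 10 ^ 6) ≤ N * (2 * log n) * N * (x * v - G * v ^ 2) := by
    gcongr
  have b4 : (N : ℝ) * N * (2 * 10 ^ 10 * K ^ 3) ≤ N * N * log n := by gcongr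
  have b5 : (N : ℝ) * N ≤ N * N * K ^ 3 := le_mul_of_one_le_right (by positivity) (hK.trans hK3)
  rw [e1]
  nlinarith

theorem final_ineq {s d r N L n l K lam S Γ D c : ℝ} (hs : 1 ≤ s) (hd : 0 ≤ d) (hr : 0 ≤ r)
    (hdr : d * r ≤ 4473 / 1000 * s) (hN : 1 ≤ N) (hL : 0 ≤ L) (hl : 0 ≤ l) (hK : 1 ≤ K)
    (hlam0 : 0 ≤ lam) (hlam : lam ≤ n ^ 2) (hS : 77 / 100 ≤ S) (hΓ0 : 0 ≤ Γ) (hΓ : Γ ≤ 36)
    (hD : D = 134 / 100 * c * N * n ^ 2) (hc0 : 0 ≤ c) (hc : c ≤ 20) (hn2 : n ^ 2 ≤ N)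
    (hn1 : 1 ≤ n ^ 2) (hn4 : n ^ 4 ≤ 1000 * N) (hLn : L * n ^ 2 ≤ N)
    (hr2 : 3996 / 1000 * (c * n ^ 2 * L) ≤ r * N)
    (hbig : 20 * (10 ^ 6 + 3000 * l + 10 ^ 7 * (d + 1) * K) ≤ lam)
    (h : s * (2 * (N * (2 * lam) * N * N * S) - D ^ 2 - Γ * N * (3 * D * l +
      2 * (d * (N * L * (1002 / 1000 * lam + 10 ^ 5 * K))))) ≤
      d * (2 * D * (N * L * (1002 / 1000 * lam + 10 ^ 5 * K)))) : False := by
  set Z := 1002 / 1000 * lam + 10 ^ 5 * K with hZ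
  have hZ0 : 0 ≤ Z := by positivity
  have hN3 : 0 < N ^ 3 := by positivity
  have hD1 : D ≤ 27 * (N * n ^ 2) := by
    rw [hD]
    nlinarith [mul_nonneg (zero_le_one.trans hN) (sq_nonneg n)]
  have hD0 : 0 ≤ D := by rw [hD]; positivity
  have a1 : D ^ 2 ≤ 729000 * N ^ 3 := by
    calc D ^ 2 ≤ (27 * (N * n ^ 2)) ^ 2 := by gcongr
      _ = 729 * N ^ 2 * n ^ 4 := by ring
      _ ≤ 729 * N ^ 2 * (1000 * N) := by gcongr
      _ = _ := by ring
  have a2 : Γ * N * (3 * D * l) ≤ 2916 * l * N ^ 3 := by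
    calc _ ≤ 36 * N * (3 * (27 * (N * N)) * l) := by
          gcongr
          exact hD1.trans (by gcongr)
      _ = _ := by ring
  have a3 : L * Z ≤ 100002 * K * N := by
    have b1 : L * lam ≤ L * n ^ 2 := by gcongr
    have b2 : L ≤ L * n ^ 2 := le_mul_of_one_le_right hL hn1
    have b3 : K * L ≤ K * N := by gcongr; linarith
    have b4 : N ≤ K * N := le_mul_of_one_le_left (by linarith) hK
    rw [hZ]
    nlinarith
  have a4 : Γ * N * (2 * (d * (N * L * Z))) ≤ 7200144 * d * K * N ^ 3 := by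
    calc _ = Γ * N * (2 * (d * (N * (L * Z)))) := by ring
      _ ≤ 36 * N * (2 * (d * (N * (100002 * K * N)))) := by gcongr
      _ = _ := by ring
  have a5 : d * (2 * D * (N * L * Z)) ≤ s * (3 * Z * N ^ 3) := by
    calc _ = 268 / 100 * d * N ^ 2 * Z * (c * n ^ 2 * L) := by rw [hD]; ring
      _ ≤ 268 / 100 * d * N ^ 2 * Z * (1000 / 3996 * (r * N)) :=
          mul_le_mul_of_nonneg_left (by linarith) (by positivity)
      _ = 2680 / 3996 * Z * N ^ 3 * (d * r) := by ring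
      _ ≤ 2680 / 3996 * Z * N ^ 3 * (4473 / 1000 * s) := by gcongr
      _ = 2680 / 3996 * (4473 / 1000) * (s * Z * N ^ 3) := by ring
      _ ≤ 3 * (s * Z * N ^ 3) := by gcongr; norm_num
      _ = _ := by ring
  have a6 := le_of_mul_le_mul_left (h.trans a5) (by linarith)
  have a7 : 308 / 100 * lam * N ^ 3 ≤ 2 * (N * (2 * lam) * N * N * S) := by
    calc _ = 2 * (N * (2 * lam) * N * N * (77 / 100)) := by ring
      _ ≤ _ := by gcongr
  have a8 : 308 / 100 * lam * N ^ 3 ≤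
      (3 * Z + 729000 + 2916 * l + 7200144 * d * K) * N ^ 3 := by nlinarith
  have a9 := le_of_mul_le_mul_right a8 hN3
  have a10 : 0 ≤ d * K := by positivity
  rw [hZ] at a9
  nlinarith

end Pool.Agent.P.MP_26ad15_nt.Q
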