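import Pool.Agent.P.MP_26ad15_nt.Q.N1

/-! The choice of the parameters. -/

namespace Pool.Agent.P.MP_26ad15_nt.Q

open Real

/-- admissible parameters -/
structure Par (c y X : ℕ) : Prop where
  c1 : 1 ≤ c
  c2 : c ≤ 20
  y1 : 10 ^ 9 ≤ y
  x1 : X * X ≤ c * (1000 * y) ^ 2
  x2 : c * (1000 * y) ^ 2 < (X + 1) * (X + 1)

namespace Par

variable {c y X : ℕ} (h : Par c y X)
include h

theorem X_ge : 1000 * y ≤ X := by
  have h1 := h.x2
  have h2 : (1000 * y) ^ 2 ≤ c * (1000 * y) ^ 2 := Nat.le_mul_of_pos_left _ h.c1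
  by_contra hn
  have : X + 1 ≤ 1000 * y := by omega
  nlinarith [Nat.mul_le_mul this this]

theorem X_le : X ≤ 5000 * y := by
  have h1 := h.x1
  have h2 : c * (1000 * y) ^ 2 ≤ 20 * (1000 * y) ^ 2 := Nat.mul_le_mul_right _ h.c2
  by_contra hn
  have : 5000 * y + 1 ≤ X := by omega
  nlinarith [Nat.mul_le_mul this this]

theorem hM : (2 * (1000 * y) + 1) * (2 * X + 1) ≤ 50000000 * (y ^ 2 - (2 * X + 1)) := by
  have h1 := h.X_le
  have h2 := h.y1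
  have h3 : 10 ^ 9 * y ≤ y ^ 2 := by nlinarith
  have h4 : (2 * (1000 * y) + 1) * (2 * X + 1) ≤ 2001 * y * (10001 * y) :=
    Nat.mul_le_mul (by omega) (by omega)
  have h5 : 2001 * y * (10001 * y) = 20012001 * y ^ 2 := by ring
  omega

theorem ord_le {ι : Type*} [Fintype ι]
    (ρ : ι ↪ idx X (1000 * y + 2 * 50000000) (1000 * y ^ 2 + y ^ 2)) :
    1000 * (2 * ∑ i, (ρ i).1.2) ≤
      1004 * ((2 * (1000 * y) + 1) * (2 * X + 1) * (1000 * y ^ 2) * (1000 * y ^ 2)) := by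
  have h1 := sum_emb_le ρ (fun x => x.2) fun _ => Nat.zero_le _
  have h2 := sum_ord_idx X (1000 * y + 2 * 50000000) (1000 * y ^ 2 + y ^ 2)
  have h3 : 1000 * (2 * (1000 * y + 2 * 50000000) + 1) ≤ 1001 * (2 * (1000 * y) + 1) := by
    have : 1000000000 ≤ y := h.y1
    linarith
  have h4 := Nat.mul_le_mul_left ((2 * X + 1) * (1000 * y ^ 2 + y ^ 2) ^ 2) h3
  have h5 : 0 ≤ (2 * (1000 * y) + 1) * (2 * X + 1) * y ^ 4 := Nat.zero_le _
  nlinarith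

theorem degOK (ρ : idx (1000 * y) X (1000 * y ^ 2) ↪
    idx X (1000 * y + 2 * 50000000) (1000 * y ^ 2 + y ^ 2)) :
    DegOK c (670000 * c * ((2 * (1000 * y) + 1) * (2 * X + 1) * (1000 * y ^ 2)) * y ^ 2)
      (fun i => (ρ i).1) Subtype.val := by
  have h0 := h.ord_le ρ
  have hc : (1 : ℤ) ≤ c := by exact_mod_cast h.c1
  have h1 := sum_emb_le ρ (fun x => 1 * x.1.1 ^ 2 + (c : ℤ) * x.1.2 ^ 2) fun _ => by positivity
  have h2 := sum_sq_idx X (1000 * y + 2 * 50000000) (1000 * y ^ 2 + y ^ 2) 1 c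
  have h3 := sum_sq_idx (1000 * y) X (1000 * y ^ 2) c 1
  have h4 : ∑ i : idx (1000 * y) X (1000 * y ^ 2), (i.1.1.2 ^ 2 + (c : ℤ) * i.1.1.1 ^ 2) =
      ∑ x ∈ idx (1000 * y) X (1000 * y ^ 2), ((c : ℤ) * x.1.1 ^ 2 + 1 * x.1.2 ^ 2) := by
    rw [← Finset.sum_coe_sort (idx _ _ _)]
    exact Finset.sum_congr rfl fun _ _ => by ring
  have hy : (10 : ℤ) ^ 9 ≤ y := by exact_mod_cast h.y1
  have hX : (X : ℤ) ≤ 5000 * y := by exact_mod_cast h.X_le
  have hx1 : (X : ℤ) * X ≤ c * (1000 * y) ^ 2 := by exact_mod_cast h.x1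
  have h0' : 1000 * (2 * ∑ i, ((ρ i).1.2 : ℤ)) ≤
      1004 * ((2 * (1000 * y) + 1) * (2 * X + 1) * (1000 * y ^ 2) * (1000 * y ^ 2)) := by
    exact_mod_cast h0
  simp only [one_mul] at h1 h2 h3 h4
  unfold DegOK
  rw [h4]
  generalize ∑ x ∈ idx X (1000 * y + 2 * 50000000) (1000 * y ^ 2 + y ^ 2),
    (x.1.1 ^ 2 + (c : ℤ) * x.1.2 ^ 2) = Q1 at h1 h2
  push_cast at h2 h3 ⊢
  have hyy : (10 : ℤ) ^ 9 * y ≤ (y : ℤ) ^ 2 := by nlinarith
  have hcy : (y : ℤ) ^ 2 ≤ c * (y : ℤ) ^ 2 := le_mul_of_one_le_left (by positivity) hc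
  have b1 : (X : ℤ) * (X + 1) ≤ 1001000 * (c * (y : ℤ) ^ 2) := by nlinarith
  have b2 : (1000 * (y : ℤ) + 100000000) * (1000 * y + 100000000 + 1) ≤ 1001000 * (y : ℤ) ^ 2 := by
    nlinarith
  have b3 : 1000 * (y : ℤ) * (1000 * y + 1) ≤ 1001000 * (y : ℤ) ^ 2 := by nlinarith
  have b2' := mul_le_mul_of_nonneg_left b2 (zero_le_one.trans hc)
  have b3' := mul_le_mul_of_nonneg_left b3 (zero_le_one.trans hc)
  have b4 : 1000 * (2 * (1000 * (y : ℤ) + 100000000) + 1) ≤ 1001 * (2 * (1000 * y) + 1) := by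
    linarith
  set M : ℤ := (2 * (1000 * y) + 1) * (2 * X + 1) with hM
  have hM0 : 0 ≤ M := by positivity
  have c1 : M * (1000 * y ^ 2) * (c * (1000 * y * (1000 * y + 1)) + X * (X + 1)) ≤
      M * (1000 * y ^ 2) * (2002000 * (c * (y : ℤ) ^ 2)) :=
    mul_le_mul_of_nonneg_left (by linarith) (by positivity)
  have c2 : (2 * (X : ℤ) + 1) * (1000 * (2 * (1000 * (y : ℤ) + 100000000) + 1)) *
      (1000 * y ^ 2 + y ^ 2) * (X * (X + 1) +
        c * ((1000 * y + 100000000) * (1000 * y + 100000000 + 1))) ≤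
      (2 * X + 1) * (1001 * (2 * (1000 * y) + 1)) * (1000 * y ^ 2 + y ^ 2) *
        (2002000 * (c * (y : ℤ) ^ 2)) := by
    gcongr
    linarith
  have c3 : M * y ^ 2 * y ^ 2 ≤ M * y ^ 2 * (c * (y : ℤ) ^ 2) :=
    mul_le_mul_of_nonneg_left hcy (by positivity)
  have c4 : 0 ≤ M * y ^ 2 * (c * (y : ℤ) ^ 2) := by positivity
  have c5 : (2 * X + 1) * (1001 * (2 * (1000 * y) + 1)) * (1000 * y ^ 2 + y ^ 2) *
      (2002000 * (c * (y : ℤ) ^ 2)) = 1001 * 1001 * 2002000 * (M * y ^ 2 * (c * (y : ℤ) ^ 2)) := by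
    rw [hM]; ring
  linarith

theorem real_facts {n L N : ℝ} (hn : n = (1000 * y : ℕ)) (hL : L = (1000 * y ^ 2 : ℕ))
    (hN : N = ((2 * (1000 * y) + 1) * (2 * X + 1) * (1000 * y ^ 2) : ℕ)) :
    10 ^ 12 ≤ n ∧ n ^ 2 = 1000 * L ∧ 1 ≤ L ∧ L * n ^ 2 ≤ N ∧ N ≤ 33000 * L ^ 2 ∧
      3996 / 1000 * (c * n ^ 2 * L) ≤ √c * N := by
  have hy : (10 : ℝ) ^ 9 ≤ y := by exact_mod_cast h.y1
  have hX : (X : ℝ) ≤ 5000 * y := by exact_mod_cast h.X_le
  have hX' : 1000 * (y : ℝ) ≤ X := by exact_mod_cast h.X_ge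
  have hx2 : c * (1000 * (y : ℝ)) ^ 2 < (X + 1) * (X + 1) := by exact_mod_cast h.x2
  have hc : (1 : ℝ) ≤ c := by exact_mod_cast h.c1
  push_cast at hn hL hN
  have hr1 : 1 ≤ √c := one_le_sqrt.2 hc
  have hr2 : √c * √c = c := mul_self_sqrt (by linarith)
  have hr3 : √c * n < X + 1 := by
    refine lt_of_mul_self_lt_mul_self₀ (by positivity) ?_
    calc √c * n * (√c * n) = √c * √c * n ^ 2 := by ring
      _ < _ := by rw [hr2, hn]; exact hx2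
  have hL1 : 1 ≤ L := by nlinarith
  have hn0 : 10 ^ 12 ≤ n := by linarith
  have hN' : N = (2 * n + 1) * (2 * X + 1) * L := by rw [hN, hn, hL]
  refine ⟨hn0, by rw [hn, hL]; ring, hL1, ?_, ?_, ?_⟩
  · rw [hN', mul_comm L]
    gcongr
    nlinarith
  · have h1 : (2 * n + 1) * (2 * X + 1) ≤ 3000 * y * (11000 * y) := by gcongr <;> linarith
    calc N ≤ 3000 * y * (11000 * y) * L := by rw [hN']; gcongr
      _ = _ := by rw [hL]; ring
  · have h1 : 3996 / 1000 * (√c * n ^ 2) ≤ (2 * n + 1) * (2 * X + 1) := by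
      have h2 : n ≤ √c * n := le_mul_of_one_le_left (by linarith) hr1
      have h3 : 2 * n * (1998 / 1000 * (√c * n)) ≤ (2 * n + 1) * (2 * X + 1) := by
        gcongr <;> linarith
      linarith
    calc _ = √c * (3996 / 1000 * (√c * n ^ 2) * L) := by
          conv_lhs => rw [← hr2]
          ring
      _ ≤ _ := by rw [hN']; gcongr

end Par

end Pool.Agent.P.MP_26ad15_nt.Q
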