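import Pool.Agent.P.MP_26ad15_nt.Q.R1

/-! The arithmetic part: a nonzero resultant and the product formula. -/

namespace Pool.Agent.P.MP_26ad15_nt.Q

open Polynomial Real NumberField

theorem split_bad {R : Type*} [CommRing R] [IsDomain R] [IsIntegrallyClosed R] {φ₀ : R →+* ℂ}
    (hφ : Function.Injective φ₀) {B : R[X]} (hB : B.Monic) (P : R[X]) (hP : P ≠ 0) :
    ∃ G P₁ : R[X], G.Monic ∧ P = G * P₁ ∧
      (∀ (φ : R →+* ℂ) (α : ℂ), G.eval₂ φ α = 0 → B.eval₂ φ α = 0) ∧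
      ∀ α, P₁.eval₂ φ₀ α = 0 → B.eval₂ φ₀ α ≠ 0 := by
  induction hn : P.natDegree using Nat.strong_induction_on generalizing P with
  | _ n ih =>
  by_cases h : ∃ α, P.eval₂ φ₀ α = 0 ∧ B.eval₂ φ₀ α = 0
  · obtain ⟨α, h1, h2⟩ := h
    let _ := φ₀.toAlgebra
    have : FaithfulSMul R ℂ := (faithfulSMul_iff_algebraMap_injective R ℂ).2 hφ
    have hi : IsIntegral R α := ⟨B, hB, h2⟩
    obtain ⟨Q, hQ⟩ := minpoly.isIntegrallyClosed_dvd hi (p := P) h1
    obtain ⟨B', hB'⟩ := minpoly.isIntegrallyClosed_dvd hi (p := B) h2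
    have hQ0 : Q ≠ 0 := fun h0 => hP (by rw [hQ, h0, mul_zero])
    have hlt : Q.natDegree < n := by
      rw [← hn, hQ, (minpoly.monic hi).natDegree_mul' hQ0]
      have := minpoly.natDegree_pos hi
      omega
    obtain ⟨G, P₁, hG, e, h3, h4⟩ := ih _ hlt Q hQ0 rfl
    refine ⟨minpoly R α * G, P₁, (minpoly.monic hi).mul hG, by rw [mul_assoc, ← e, ← hQ],
      fun φ β hβ => ?_, h4⟩
    rw [eval₂_mul] at hβ
    rcases mul_eq_zero.1 hβ with h5 | h5
    · rw [hB', eval₂_mul, h5, zero_mul]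
    · exact h3 φ β h5
  · exact ⟨1, P, monic_one, (one_mul P).symm, fun φ α h => by simp at h,
      fun α h1 h2 => h ⟨α, h1, h2⟩⟩

theorem greedy {ρ : Type*} [Fintype ρ] (F : ℂ → ρ → ℂ) (S : Finset ℂ)
    (h : ∀ α ∈ S, ∃ e, F α e ≠ 0) :
    ∃ z : ρ → ℕ, ∑ e, z e ≤ S.card ^ 2 ∧ ∀ α ∈ S, ∑ e, (z e : ℂ) * F α e ≠ 0 := by
  classical
  induction S using Finset.induction_on with
  | empty => exact ⟨0, by simp, by simp⟩
  | insert a S ha ih =>
    obtain ⟨z, hz, hz'⟩ := ih fun α hα => h α (Finset.mem_insert_of_mem hα)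
    obtain ⟨e, he⟩ := h a (Finset.mem_insert_self _ _)
    obtain ⟨t, ht, ht'⟩ := Finset.exists_mem_notMem_of_card_lt_card
      (s := (insert a S).image fun α => -(∑ e, (z e : ℂ) * F α e) / F α e)
      (t := (Finset.range (S.card + 2)).image (Nat.cast : ℕ → ℂ)) (by
        rw [Finset.card_image_of_injective _ Nat.cast_injective, Finset.card_range]
        refine Finset.card_image_le.trans_lt ?_
        rw [Finset.card_insert_of_notMem ha]
        omega)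
    obtain ⟨s, hs, rfl⟩ := Finset.mem_image.1 ht
    refine ⟨z + Pi.single e s, ?_, fun α hα h0 => ?_⟩
    · simp only [Pi.add_apply, Finset.sum_add_distrib, Finset.sum_pi_single', Finset.mem_univ,
        if_true, Finset.card_insert_of_notMem ha]
      have := Finset.mem_range.1 hs
      nlinarith
    · have e1 : ∑ e', (((z + Pi.single e s : ρ → ℕ) e' : ℕ) : ℂ) * F α e' =
          ∑ e', (z e' : ℂ) * F α e' + s * F α e := by
        simp [add_mul, Finset.sum_add_distrib, Pi.single_apply]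
      rw [e1] at h0
      by_cases hF : F α e = 0
      · rcases Finset.mem_insert.1 hα with rfl | hα'
        · exact he hF
        · exact hz' α hα' (by simpa [hF] using h0)
      · refine ht' (Finset.mem_image.2 ⟨α, hα, ?_⟩)
        rw [div_eq_iff hF]
        linear_combination -h0

variable {E : Type*} [Field E] [NumberField E]

/-- an embedding of the ring of integers -/
noncomputable def em (σ : E →ₐ[ℚ] ℂ) : 𝓞 E →+* ℂ := (σ : E →+* ℂ).comp (algebraMap (𝓞 E) E)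

theorem em_inj (σ : E →ₐ[ℚ] ℂ) : Function.Injective (em σ) :=
  (σ : E →+* ℂ).injective.comp RingOfIntegers.coe_injective

theorem one_le_prod {x : 𝓞 E} (hx : x ≠ 0) : 1 ≤ ∏ σ : E →ₐ[ℚ] ℂ, ‖em σ x‖ := by
  have h1 := Algebra.norm_eq_prod_embeddings ℚ ℂ (x : E)
  have h2 : Algebra.norm ℤ x ≠ 0 := Algebra.norm_ne_zero_iff.2 hx
  rw [← Algebra.coe_norm_int] at h1
  rw [← norm_prod]
  refine le_trans ?_ (le_of_eq (congrArg norm h1))
  simp only [eq_ratCast, Rat.cast_intCast, Complex.norm_intCast]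
  exact_mod_cast Int.one_le_abs h2

theorem core_abs {ρ ι : Type*} [Fintype ρ] [Fintype ι] {W cc : ι → ℝ} (hW : ∀ k, 0 ≤ W k)
    (hc : ∀ k, 0 ≤ cc k) (P : ρ → (𝓞 E)[X]) {D : ℕ} (hD : 1 ≤ D) (hP : ∀ e, (P e).natDegree ≤ D)
    {H ℓ : ℝ} (hH : 0 ≤ H) (hℓ : 0 ≤ ℓ)
    (hb : ∀ σ e α, (D : ℝ) ^ 2 * ‖(P e).eval₂ (em σ) α‖ ≤ exp H * max 1 ‖α‖ ^ D)
    {B : (𝓞 E)[X]} (hB : B.Monic) (𝒮 : Finset (E →ₐ[ℚ] ℂ)) {σ₀ : E →ₐ[ℚ] ℂ}
    (hz : ∀ α, B.eval₂ (em σ₀) α ≠ 0 → ∃ e, (P e).eval₂ (em σ₀) α ≠ 0)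
    (h𝒮 : ∀ σ ∈ 𝒮, ∃ u : Fin 2 → ℂ, (∀ i, ‖u i‖ = 1) ∧ 2 * exp (-ℓ) ≤ ‖u 0 - u 1‖ ∧
      (∀ i α, B.eval₂ (em σ) α = 0 → exp (-ℓ) ≤ ‖α - u i‖) ∧
      ∀ e i j α, ‖α - u i‖ ≤ exp (-W j) →
        (D : ℝ) ^ 2 * ‖(P e).eval₂ (em σ) α‖ ≤ exp (-psi W cc (W j))) :
    𝒮.card * (2 * ∑ k, cc k * psi W cc (W k) - D ^ 2 -
      (∑ k, cc k) * (3 * D * ℓ + 2 * (Module.finrank ℚ E * H))) ≤
      Module.finrank ℚ E * (2 * D * H) := by
  classical
  have hD1 : (1 : ℝ) ≤ (D : ℝ) ^ 2 := one_le_pow₀ (by exact_mod_cast hD)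
  have hcard : Fintype.card (E →ₐ[ℚ] ℂ) = Module.finrank ℚ E := AlgHom.card ℚ E ℂ
  obtain ⟨α₀, hα₀⟩ : ∃ α, B.eval₂ (em σ₀) α ≠ 0 := by
    obtain ⟨α, hα⟩ := Infinite.exists_notMem_finset (B.map (em σ₀)).roots.toFinset
    refine ⟨α, fun h0 => hα ?_⟩
    rw [Multiset.mem_toFinset, mem_roots (hB.map _).ne_zero, IsRoot, eval_map, h0]
  obtain ⟨e₀, he₀⟩ := hz α₀ hα₀
  have hP0 : P e₀ ≠ 0 := fun h0 => he₀ (by rw [h0, eval₂_zero])
  obtain ⟨G, P₁, hG, hGP, hGB, hPB⟩ := split_bad (em_inj σ₀) hB (P e₀) hP0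
  have hP1 : P₁ ≠ 0 := fun h0 => hP0 (by rw [hGP, h0, mul_zero])
  have hP1' : ∀ σ, P₁.map (em σ) ≠ 0 := fun σ => (Polynomial.map_ne_zero_iff (em_inj σ)).2 hP1
  obtain ⟨z, hz1, hz2⟩ := greedy (fun α e => (P e).eval₂ (em σ₀) α)
    (P₁.map (em σ₀)).roots.toFinset fun α hα => hz α (hPB α (by
      rwa [Multiset.mem_toFinset, mem_roots (hP1' σ₀), IsRoot, eval_map] at hα))
  have hz3 : ∑ e, (z e : ℝ) ≤ (D : ℝ) ^ 2 := by
    have h1 : (P₁.map (em σ₀)).roots.toFinset.card ≤ D := by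
      refine (Multiset.toFinset_card_le _).trans ((card_roots' _).trans
        (natDegree_map_le.trans (le_trans ?_ (hP e₀))))
      rw [hGP, hG.natDegree_mul' hP1]
      omega
    exact_mod_cast hz1.trans (Nat.pow_le_pow_left h1 2)
  set P' : (𝓞 E)[X] := ∑ e, C (z e : 𝓞 E) * P e with hP'
  have hP'd : P'.natDegree ≤ D :=
    natDegree_sum_le_of_forall_le _ _ fun e _ => (natDegree_C_mul_le _ _).trans (hP e)
  have hev : ∀ σ α, (P'.map (em σ)).eval α = ∑ e, (z e : ℂ) * (P e).eval₂ (em σ) α := by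
    intro σ α
    simp only [eval_map, hP', eval₂_finsetSum, eval₂_mul, eval₂_natCast, map_natCast]
  have hev' : ∀ σ α {S : ℝ}, (∀ e, (D : ℝ) ^ 2 * ‖(P e).eval₂ (em σ) α‖ ≤ S) → 0 ≤ S →
      ‖(G.map (em σ) * P₁.map (em σ)).eval α‖ ≤ S ∧ ‖(P'.map (em σ)).eval α‖ ≤ S := by
    intro σ α S h hS
    constructor
    · rw [← Polynomial.map_mul, ← hGP, eval_map]
      exact (le_mul_of_one_le_left (norm_nonneg _) hD1).trans (h e₀)
    · rw [hev]
      refine (norm_sum_le _ _).trans (le_of_mul_le_mul_left ?_ (zero_lt_one.trans_le hD1))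
      rw [Finset.mul_sum]
      refine (Finset.sum_le_sum (g := fun e => (z e : ℝ) * S) fun e _ => ?_).trans ?_
      · rw [norm_mul, Complex.norm_natCast, mul_left_comm]
        exact mul_le_mul_of_nonneg_left (h e) (Nat.cast_nonneg _)
      · rw [← Finset.sum_mul]
        gcongr
  set x := resultant P₁ P' P₁.natDegree D with hx
  have hxσ : ∀ σ, em σ x = resultant (P₁.map (em σ)) (P'.map (em σ))
      (P₁.map (em σ)).natDegree D := fun σ => by
    rw [natDegree_map_eq_of_injective (em_inj σ), resultant_map_map]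
  have hx0 : x ≠ 0 := by
    intro h0
    have h1 := hxσ σ₀
    rw [h0, map_zero, resultant_eq_prod_eval _ _ D (natDegree_map_le.trans hP'd)
      (IsAlgClosed.splits _)] at h1
    refine mul_ne_zero (pow_ne_zero _ (leadingCoeff_ne_zero.2 (hP1' σ₀)))
      (Multiset.prod_ne_zero fun h2 => ?_) h1.symm
    obtain ⟨α, hα, h3⟩ := Multiset.mem_map.1 h2
    exact hz2 α (Multiset.mem_toFinset.2 hα) (by rw [← hev, h3])
  have hdeg : ∀ σ, (G.map (em σ) * P₁.map (em σ)).natDegree ≤ D := fun σ => by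
    rw [← Polynomial.map_mul, ← hGP]
    exact natDegree_map_le.trans (hP e₀)
  have hgen := fun σ α => hev' σ α (fun e => hb σ e α) (by positivity)
  have hlc : ∀ σ, ‖em σ (P e₀).leadingCoeff‖ ≤ exp H := fun σ => by
    rw [← leadingCoeff_map_of_injective (em_inj σ), hGP, Polynomial.map_mul]
    exact (leadingCoeff_le_mahlerMeasure _).trans
      (mahler_le _ (fun z hz => by simpa [hz] using (hgen σ z).1) (exp_pos _))
  have hlc' : ∀ σ, exp (-(Module.finrank ℚ E * H)) ≤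
      ‖(G.map (em σ) * P₁.map (em σ)).leadingCoeff‖ := fun σ => by
    rw [← Polynomial.map_mul, ← hGP, leadingCoeff_map_of_injective (em_inj σ), exp_neg,
      inv_le_iff_one_le_mul₀ (exp_pos _)]
    refine (one_le_prod (leadingCoeff_ne_zero.2 hP0)).trans ?_
    rw [← Finset.mul_prod_erase _ _ (Finset.mem_univ σ), exp_nat_mul]
    gcongr
    refine (Finset.prod_le_prod (fun _ _ => norm_nonneg _) fun τ _ => hlc τ).trans ?_
    rw [Finset.prod_const]
    exact pow_le_pow_right₀ (one_le_exp hH) (hcard ▸ Finset.card_le_univ _)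
  set Y := 2 * ∑ k, cc k * psi W cc (W k) - D ^ 2 -
      (∑ k, cc k) * (3 * D * ℓ + 2 * (Module.finrank ℚ E * H)) with hY
  have key : ∀ σ, ‖em σ x‖ ≤ exp (2 * D * H - if σ ∈ 𝒮 then Y else 0) := by
    intro σ
    rw [hxσ]
    split_ifs with hσ
    · obtain ⟨u, h1, h2, h3, h4⟩ := h𝒮 σ hσ
      refine (res_small hW hc (hG.map _) (hdeg σ) (hP1' σ) (natDegree_map_le.trans hP'd) hH hℓ
        (fun α => (hgen σ α).1) (fun α => (hgen σ α).2) (hlc' σ) u h1 h2
        (fun i α hα => h3 i α (hGB _ _ ?_)) fun i j α hα =>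
          hev' σ α (fun e => h4 e i j α hα) (exp_pos _).le).trans (le_of_eq ?_)
      · rwa [mem_roots (hG.map _).ne_zero, IsRoot, eval_map] at hα
      · congr 1
        rw [hY]
        ring
    · refine (res_le (hG.map _) (hdeg σ) (hP1' σ) (natDegree_map_le.trans hP'd) hH
        (fun α => (hgen σ α).1) (fun _ => 0) fun α => by simpa using (hgen σ α).2).trans
        (le_of_eq ?_)
      congr 1
      simp
      ring
  have h5 := (one_le_prod hx0).trans
    (Finset.prod_le_prod (fun _ _ => norm_nonneg _) fun σ _ => key σ)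
  rw [← exp_sum, one_le_exp_iff, Finset.sum_sub_distrib, Finset.sum_ite_mem, Finset.univ_inter,
    Finset.sum_const, Finset.sum_const, Finset.card_univ, hcard, nsmul_eq_mul, nsmul_eq_mul] at h5
  linarith

end Pool.Agent.P.MP_26ad15_nt.Q
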