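import Pool.Agent.P.MP_26ad15_nt.Q.Z1

/-! The sharp zero estimate. -/

namespace Pool.Agent.P.MP_26ad15_nt.Q

open Polynomial
open scoped PowerSeries

theorem sub_est {b ξ : ℂ} (hb : ∀ i j : ℤ, (i : ℂ) + j * b = 0 → j = 0) (hξ0 : ξ ≠ 0)
    {n1 T1 X1 X2 : ℕ} (hξ : ∀ j, 1 ≤ j → j < n1 → ξ ^ j ≠ 1)
    (hM : (2 * X1 + 1) * (2 * X2 + 1) ≤ n1 * (T1 - (2 * X2 + 1))) (P : ℤ × ℤ → ℂ)
    (h : ∀ k < n1, ∀ t < T1, ∑ μ ∈ box X1 X2, P μ * mu b μ ^ t * (ξ ^ k) ^ μ.1 = 0) :
    ∀ μ ∈ box X1 X2, P μ = 0 := by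
  classical
  set g : ℤ → ℂ[X] := fun j =>
    ∑ i ∈ Finset.Icc (-(X1 : ℤ)) X1, monomial (i + X1).toNat (P (i, j)) with hg
  set S := (Finset.Icc (-(X2 : ℤ)) X2).filter fun j => g j ≠ 0 with hS
  have hmS : ∀ j, j ∈ S ↔ j ∈ Finset.Icc (-(X2 : ℤ)) X2 ∧ g j ≠ 0 := fun j => Finset.mem_filter
  by_cases hS0 : S = ∅
  · intro μ hμ
    obtain ⟨h1, h2⟩ := Finset.mem_product.1 hμ
    have h3 : g μ.2 = 0 := by
      by_contra hne
      exact Finset.notMem_empty _ (hS0 ▸ (hmS _).2 ⟨h2, hne⟩)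
    have h4 := congrArg (fun f => coeff f (μ.1 + X1).toNat) h3
    simp only [hg, finsetSum_coeff, coeff_monomial, coeff_zero] at h4
    rw [Finset.sum_eq_single_of_mem μ.1 h1, if_pos rfl] at h4
    · exact h4
    · intro i hi hne
      rw [Finset.mem_Icc] at hi h1
      rw [if_neg (by omega)]
  exfalso
  have hpos : 0 < S.card := Finset.card_pos.2 (Finset.nonempty_iff_ne_empty.2 hS0)
  have : Nonempty (Fin S.card) := ⟨⟨0, hpos⟩⟩
  have hcard : S.card ≤ 2 * X2 + 1 := by
    refine (Finset.card_filter_le _ _).trans ?_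
    rw [Int.card_Icc]
    omega
  set e : Fin S.card → ℤ := fun m => (S.equivFin.symm m : ℤ) with he
  have hei : Function.Injective e := Subtype.val_injective.comp S.equivFin.symm.injective
  have hem : ∀ m, e m ∈ S := fun m => (S.equivFin.symm m).2
  set x : ℤ → ℂ := fun j => j * b - X1 with hx
  set A : Matrix (Fin S.card) (Fin S.card) ℂ[X] :=
    fun r m => (Dop X (x (e m)) ^ (r : ℕ)) (g (e m)) with hA
  have hdeg : ∀ j, (g j).natDegree ≤ 2 * X1 := fun j =>
    natDegree_sum_le_of_forall_le _ _ fun i hi => (natDegree_monomial_le _).trans (by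
      rw [Finset.mem_Icc] at hi
      omega)
  have hAd : ∀ r m, (A r m).natDegree ≤ (g (e m)).natDegree := by
    intro r m
    rw [natDegree_le_iff_coeff_eq_zero]
    intro N hN
    rw [hA, coeff_Dop_X, coeff_eq_zero_of_natDegree_lt hN, mul_zero]
  obtain ⟨hd1, hd2⟩ := det_top A _ hAd
  have hne : A.det ≠ 0 := by
    intro h0
    rw [h0, coeff_zero] at hd2
    have e1 : (Matrix.of fun r m => (A r m).coeff (g (e m)).natDegree) =
        Matrix.of fun r m => (g (e m)).leadingCoeff * (Matrix.vandermonde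
          fun m => ((g (e m)).natDegree : ℂ) + x (e m)).transpose r m := by
      ext r m
      simp only [Matrix.of_apply, hA, coeff_Dop_X, Matrix.transpose_apply,
        Matrix.vandermonde_apply, coeff_natDegree, mul_comm]
    rw [e1, Matrix.det_mul_row, Matrix.det_transpose] at hd2
    refine mul_ne_zero (Finset.prod_ne_zero_iff.2 fun m _ =>
      leadingCoeff_ne_zero.2 (Finset.mem_filter.1 (hem m)).2)
      (Matrix.det_vandermonde_ne_zero_iff.2 fun m m' hm => hei ?_) hd2.symm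
    have := hb (((g (e m)).natDegree : ℤ) - (g (e m')).natDegree) (e m - e m') (by
      simp only [hx] at hm
      push_cast
      linear_combination hm)
    omega
  have hinj : Set.InjOn (fun k : ℕ => ξ ^ k) (Finset.range n1) := by
    have aux : ∀ k k' : ℕ, k < k' → k' < n1 → ξ ^ k ≠ ξ ^ k' := by
      intro k k' hk hk' hh
      obtain ⟨j, rfl⟩ := Nat.exists_eq_add_of_le hk.le
      refine hξ j (by omega) (by omega) ?_
      rw [pow_add] at hh
      exact (mul_eq_left₀ (pow_ne_zero _ hξ0)).1 hh.symm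
    intro k hk k' hk' hh
    rw [Finset.coe_range, Set.mem_Iio] at hk hk'
    rcases lt_trichotomy k k' with h1 | h1 | h1
    · exact absurd hh (aux _ _ h1 hk')
    · exact h1
    · exact absurd hh.symm (aux _ _ h1 hk)
  have hdvd : ∀ w ∈ (Finset.range n1).image fun k : ℕ => ξ ^ k,
      (X - C w) ^ (T1 - S.card) ∣ A.det := by
    intro w hw
    obtain ⟨k, hk, rfl⟩ := Finset.mem_image.1 hw
    have hw0 : ξ ^ k ≠ 0 := pow_ne_zero _ hξ0
    refine dvd_det (v := X) (y := ξ ^ k • Ex 1) ?_ ?_ (by simpa using hw0) A (fun m => x (e m))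
      (fun _ => 1) (fun _ => one_ne_zero) _ fun r t ht => ?_
    · rw [PowerSeries.smul_eq_C_mul, map_mul, cc_Ex, PowerSeries.constantCoeff_C, mul_one]
    · rw [Derivation.map_smul, d_Ex, one_smul, aeval_X]
    have h1 := h k (Finset.mem_range.1 hk) (t + r) (by have := r.2; omega)
    have h2 : ∀ j, ((Dop X (x j) ^ (t + r)) (g j)).eval (ξ ^ k) = (ξ ^ k) ^ X1 *
        ∑ i ∈ Finset.Icc (-(X1 : ℤ)) X1, P (i, j) * mu b (i, j) ^ (t + r) * (ξ ^ k) ^ i := by
      intro j
      simp only [hg, map_sum, Dop_X_monomial, eval_finsetSum, eval_monomial, Finset.mul_sum]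
      refine Finset.sum_congr rfl fun i hi => ?_
      rw [Finset.mem_Icc] at hi
      have h3 : (((i + X1).toNat : ℕ) : ℤ) = i + X1 := Int.toNat_of_nonneg (by omega)
      have h4 : (((i + X1).toNat : ℕ) : ℂ) + x j = mu b (i, j) := by
        rw [← Int.cast_natCast, h3]
        simp only [hx, mu]
        push_cast
        ring
      rw [h4, ← zpow_natCast (ξ ^ k) (i + X1).toNat, h3, zpow_add₀ hw0, zpow_natCast]
      ring
    simp only [one_mul, hA, ← Module.End.mul_apply, ← pow_add]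
    have h5 : ∑ m, ((Dop X (x (e m)) ^ (t + r)) (g (e m))).eval (ξ ^ k) =
        ∑ j ∈ S, ((Dop X (x j) ^ (t + r)) (g j)).eval (ξ ^ k) := by
      rw [← Finset.sum_coe_sort S]
      exact Equiv.sum_comp S.equivFin.symm
        fun j : S => ((Dop X (x j) ^ (t + r)) (g j)).eval (ξ ^ k)
    rw [h5, Finset.sum_subset (s₁ := S) (Finset.filter_subset _ _) fun j hj hj' => by
      rw [not_not.1 fun h0 => hj' ((hmS j).2 ⟨hj, h0⟩), map_zero, eval_zero]]
    simp only [h2]
    rw [← Finset.mul_sum, Finset.sum_comm, ← Finset.sum_product' (f := fun i j =>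
      P (i, j) * mu b (i, j) ^ (t + r) * (ξ ^ k) ^ i)]
    exact mul_eq_zero_of_right _ h1
  have h6 := card_mul_le hne _ _ hdvd
  rw [Finset.card_image_of_injOn hinj, Finset.card_range] at h6
  have h7 : ∑ m, (g (e m)).natDegree ≤ S.card * (2 * X1) := by
    simpa using Finset.sum_le_card_nsmul Finset.univ _ _ fun m _ => hdeg (e m)
  have h8 : n1 * (T1 - (2 * X2 + 1)) ≤ n1 * (T1 - S.card) := Nat.mul_le_mul_left _ (by omega)
  have h9 : S.card * (2 * X1) ≤ (2 * X2 + 1) * (2 * X1) := Nat.mul_le_mul_right _ hcard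
  nlinarith

theorem zero_est {c : ℕ} {p q : ℤ} {b A α : ℂ} (hb : ∀ i j : ℤ, (i : ℂ) + j * b = 0 → j = 0)
    (hc : c ≠ 0) (hA : A ≠ 0) (hα : α ≠ 0) {n1 T1 X1 X2 L : ℕ} (hn1 : 2 ≤ n1)
    (hξ : ∀ j, 1 ≤ j → j < n1 → (α ^ (2 * c)) ^ j ≠ 1)
    (hM : (2 * X1 + 1) * (2 * X2 + 1) ≤ n1 * (T1 - (2 * X2 + 1))) (v : idx X1 X2 L → ℂ)
    (h : ∀ r : idx X2 (X1 + 2 * n1) (L + T1), ∑ s, me c p q b A α r s.1 * v s = 0) : v = 0 := by
  classical
  set V : Ix → ℂ := fun s => if hs : s ∈ idx X1 X2 L then v ⟨s, hs⟩ else 0 with hV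
  set g : ℤ × ℤ → ℂ[X] := fun μ => ∑ l ∈ Finset.range L, monomial l (V (μ, l)) with hg
  set lt := A * (α - α⁻¹) with hlt
  have hlt0 : lt ≠ 0 := by
    refine mul_ne_zero hA (sub_ne_zero.2 fun h0 => hξ 1 le_rfl (by omega) ?_)
    have : α ^ 2 = 1 := by
      rw [sq]
      nth_rewrite 2 [h0]
      exact mul_inv_cancel₀ hα
    rw [pow_one, pow_mul, this, one_pow]
  set S := (box X1 X2).filter fun μ => g μ ≠ 0 with hS
  have hmS : ∀ μ, μ ∈ S ↔ μ ∈ box X1 X2 ∧ g μ ≠ 0 := fun j => Finset.mem_filter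
  have key : ∀ w ∈ box X2 (X1 + 2 * n1), ∀ t < L + T1, ∑ μ : S,
      BB c p q α μ w * ((Dop 1 (lt * mu b μ) ^ t) (g μ)).eval (pt c (p - b) w) = 0 := by
    intro w hw t ht
    have h1 := h ⟨(w, t), mem_idx.2 ⟨hw, ht⟩⟩
    have h2 : ∑ s : idx X1 X2 L, me c p q b A α (w, t) s.1 * v s =
        ∑ s ∈ idx X1 X2 L, me c p q b A α (w, t) s * V s := by
      rw [← Finset.sum_coe_sort (idx X1 X2 L)]
      exact Finset.sum_congr rfl fun s _ => by simp [hV]
    rw [Finset.sum_coe_sort S fun μ =>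
      BB c p q α μ w * ((Dop 1 (lt * mu b μ) ^ t) (g μ)).eval (pt c (p - b) w),
      Finset.sum_subset (s₁ := S) (Finset.filter_subset _ _) fun j hj hj' => by
        rw [not_not.1 fun h0 => hj' ((hmS j).2 ⟨hj, h0⟩), map_zero, eval_zero, mul_zero],
      ← h1, h2, idx, Finset.sum_product]
    refine Finset.sum_congr rfl fun μ _ => ?_
    simp only [hg, map_sum, eval_finsetSum, Finset.mul_sum]
    refine Finset.sum_congr rfl fun l _ => ?_
    rw [← smul_X_eq_monomial, map_smul, eval_smul, eval_Dop_pow, me, smul_eq_mul]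
    ring
  by_cases hS0 : S = ∅
  · funext s
    obtain ⟨h1, h2⟩ := mem_idx.1 s.2
    have h3 : g s.1.1 = 0 := by
      by_contra hne
      exact Finset.notMem_empty _ (hS0 ▸ (hmS _).2 ⟨h1, hne⟩)
    have h4 := congrArg (fun f => coeff f s.1.2) h3
    simp only [hg, finsetSum_coeff, coeff_monomial, coeff_zero] at h4
    rw [Finset.sum_ite_eq', if_pos (Finset.mem_range.2 h2)] at h4
    simpa [hV] using h4
  exfalso
  have hne := Finset.nonempty_iff_ne_empty.2 hS0
  have : Nonempty S := hne.to_subtype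
  have hBB : ∀ (μ : ℤ × ℤ) (k : ℕ),
      BB c p q α μ (0, 2 * (k : ℤ)) = ((α ^ (2 * c)) ^ k) ^ μ.1 := by
    intro μ k
    have h1 : Even (cz c p q μ (0, 2 * (k : ℤ))) :=
      ⟨-(q * μ.2 * k) - c * p * μ.1 * k, by simp only [cz]; ring⟩
    rw [BB, h1.neg_one_zpow, one_mul, ← pow_mul, ← zpow_natCast, ← zpow_mul]
    congr 1
    simp only [kk]
    push_cast
    ring
  obtain ⟨ρ, hρ⟩ := exists_minor (ι := S) (κ := Fin n1 × Fin T1)
    (fun r μ => (lt * mu b μ) ^ (r.2 : ℕ) * BB c p q α μ (0, 2 * ((r.1 : ℕ) : ℤ))) (by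
      intro P hP
      have := sub_est hb (pow_ne_zero _ hα) hξ hM
        (fun μ => if hμ : μ ∈ S then P ⟨μ, hμ⟩ else 0) fun k hk t ht => by
          have h1 := hP (⟨k, hk⟩, ⟨t, ht⟩)
          rw [← Finset.sum_subset (Finset.filter_subset (fun μ => g μ ≠ 0) (box X1 X2))
            fun μ _ hμ => by rw [dif_neg hμ, zero_mul, zero_mul], ← Finset.sum_coe_sort S]
          refine mul_left_cancel₀ (pow_ne_zero t hlt0) ?_
          rw [mul_zero, ← h1, Finset.mul_sum]
          refine Finset.sum_congr rfl fun μ _ => ?_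
          simp only [hBB, dif_pos μ.2, mul_pow]
          ring
      funext μ
      simpa using this μ (Finset.mem_filter.1 μ.2).1)
  set w1 : S → ℤ × ℤ := fun r => (0, 2 * (((ρ r).1 : ℕ) : ℤ)) with hw1
  set Am : Matrix S S ℂ[X] := fun r μ => BB c p q α μ (w1 r) •
    (Dop 1 (lt * mu b μ) ^ ((ρ r).2 : ℕ)) (taylor (pt c (p - b) (w1 r)) (g μ)) with hAm
  have hAd : ∀ r μ, (Am r μ).natDegree ≤ (g μ).natDegree := fun r μ =>
    (natDegree_smul_le _ _).trans (Dop_one_top _ _ (natDegree_taylor _ _).le).1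
  obtain ⟨hd1, hd2⟩ := det_top Am _ hAd
  have hne0 : Am.det ≠ 0 := by
    intro h0
    rw [h0, coeff_zero] at hd2
    have e1 : (Matrix.of fun r μ => (Am r μ).coeff (g μ).natDegree) =
        Matrix.of fun r (μ : S) => (g μ).leadingCoeff * (Matrix.of fun r (μ : S) =>
          (lt * mu b μ) ^ ((ρ r).2 : ℕ) * BB c p q α μ (0, 2 * (((ρ r).1 : ℕ) : ℤ))) r μ := by
      ext r μ
      simp only [Matrix.of_apply, hAm, coeff_smul, smul_eq_mul, hw1]
      rw [(Dop_one_top _ _ (natDegree_taylor _ _).le).2, coeff_taylor_natDegree]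
      ring
    rw [e1, Matrix.det_mul_row] at hd2
    have h3 : ∏ μ : S, (g μ).leadingCoeff ≠ 0 := Finset.prod_ne_zero_iff.2 fun μ _ =>
      leadingCoeff_ne_zero.2 ((hmS μ).1 μ.2).2
    exact mul_ne_zero h3 hρ hd2.symm
  have hinj : Function.Injective (pt c (p - b)) := by
    intro w w' hw
    simp only [pt] at hw
    have h1 := hb (w.1 - w'.1 - (w.2 - w'.2) * c * p) ((w.2 - w'.2) * c) (by
      push_cast at hw ⊢
      linear_combination hw)
    have h2 : w.2 = w'.2 := sub_eq_zero.1 ((mul_eq_zero.1 h1).resolve_right (by exact_mod_cast hc))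
    rw [h2, sub_left_inj] at hw
    exact Prod.ext (by exact_mod_cast hw) h2
  have hdvd : ∀ w ∈ (box X2 X1).image (pt c (p - b)), (X - C w) ^ L ∣ Am.det := by
    intro w hw
    obtain ⟨w2, hw2, rfl⟩ := Finset.mem_image.1 hw
    refine dvd_det (v := 1) (y := PowerSeries.C (pt c (p - b) w2) + PowerSeries.X) (by simp)
      (by simp) (by simp) Am (fun μ => lt * mu b μ) (fun μ => BB c p q α μ w2)
      (fun μ => BB_ne _ _ _ hα _ _) _ fun r t ht => ?_
    rw [← key (w2 + w1 r) ?_ (t + (ρ r).2) (by have := (ρ r).2.2; omega)]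
    · refine Finset.sum_congr rfl fun μ _ => ?_
      have e : pt c (p - b) (w2 + w1 r) = pt c (p - b) w2 + pt c (p - b) (w1 r) := by
        simp only [pt, Prod.fst_add, Prod.snd_add]
        push_cast
        ring
      simp only [hAm]
      rw [map_smul, ← Module.End.mul_apply, ← pow_add, Dop_one_taylor, eval_smul, taylor_eval,
        BB_add _ _ _ hα, e, smul_eq_mul, ← mul_assoc]
    · rw [mem_box] at hw2 ⊢
      have := (ρ r).1.2
      simp only [hw1, Prod.fst_add, Prod.snd_add, add_zero, abs_le] at hw2 ⊢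
      push_cast
      omega
  have h6 := card_mul_le hne0 _ _ hdvd
  rw [Finset.card_image_of_injective _ hinj, card_box] at h6
  have h7 : ∑ μ : S, (g μ).natDegree < ∑ _μ : S, L := by
    refine Finset.sum_lt_sum_of_nonempty Finset.univ_nonempty fun μ _ => ?_
    rw [natDegree_lt_iff_degree_lt (Finset.mem_filter.1 μ.2).2]
    refine (degree_sum_le _ _).trans_lt ((Finset.sup_lt_iff (WithBot.bot_lt_coe L)).2
      fun l hl => (degree_monomial_le _ _).trans_lt ?_)
    exact WithBot.coe_lt_coe.2 (Finset.mem_range.1 hl)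
  have h8 : S.card ≤ (2 * X2 + 1) * (2 * X1 + 1) := by
    rw [mul_comm, ← card_box]
    exact Finset.card_filter_le _ _
  simp only [Finset.sum_const, Finset.card_univ, Fintype.card_coe, smul_eq_mul] at h7
  have h9 := Nat.mul_le_mul_right L h8
  omega

end Pool.Agent.P.MP_26ad15_nt.Q
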