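import Pool.Agent.P.MP_26ad15_nt.Q.A3
import Pool.Agent.P.MP_26ad15_nt.Q.Z2
import Pool.Agent.P.MP_26ad15_nt.Q.R2
import Pool.Agent.P.MP_26ad15_nt.Q.N2
import Pool.Agent.P.MP_26ad15_nt.Q.N3

/-! The main estimate: a relation `π = 2 A sin (π β)` cannot hold at many embeddings. -/

namespace Pool.Agent.P.MP_26ad15_nt.Q

open Polynomial Real NumberField Filter Topology

theorem irr_lin {b : ℝ} (hb : Irrational b) (i j : ℤ) (h : (i : ℂ) + j * b = 0) : j = 0 := by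
  by_contra hj
  have h1 : (i : ℝ) + j * b = 0 := by exact_mod_cast h
  exact (hb.intCast_mul hj).ne_int (-i) (by push_cast; linarith)

theorem cexp_ne_one {b : ℝ} (hb : Irrational b) {j : ℤ} (hj : j ≠ 0) :
    Complex.exp (j * (π * Complex.I * b)) ≠ 1 := by
  intro h
  obtain ⟨m, hm⟩ := Complex.exp_eq_one_iff.1 h
  refine hj (irr_lin hb (-(2 * m)) j ?_)
  have h1 : (π * Complex.I : ℂ) ≠ 0 := mul_ne_zero (by exact_mod_cast pi_ne_zero) Complex.I_ne_zero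
  refine mul_left_cancel₀ h1 ?_
  push_cast
  linear_combination hm

/-- the two logarithms of `-1` -/
noncomputable def lam : Fin 2 → ℂ := ![π * Complex.I, -(π * Complex.I)]

theorem lam_facts {b : ℝ} {A : ℂ} (h : 2 * A * Complex.sin (π * b) = π) (i : Fin 2) :
    Complex.exp (lam i) = -1 ∧ ‖Complex.exp (lam i * b)‖ = 1 ∧
      lam i = A * (Complex.exp (lam i * b) - (Complex.exp (lam i * b))⁻¹) := by
  rw [Complex.sin] at h
  have e1 : Complex.exp (-(π * Complex.I) * b) = Complex.exp (-(π * b) * Complex.I) := by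
    congr 1; ring
  have e2 : Complex.exp (π * Complex.I * b) = Complex.exp (π * b * Complex.I) := by
    congr 1; ring
  fin_cases i
  · refine ⟨Complex.exp_pi_mul_I, by simp [lam, Complex.norm_exp], ?_⟩
    simp only [lam, Fin.zero_eta, Matrix.cons_val_zero]
    rw [← Complex.exp_neg, ← neg_mul, e1, e2]
    linear_combination (-Complex.I) * h +
      A * (Complex.exp (-(π * b) * Complex.I) - Complex.exp (π * b * Complex.I)) * Complex.I_mul_I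
  · refine ⟨by simp [lam, Complex.exp_neg], by simp [lam, Complex.norm_exp], ?_⟩
    simp only [lam, Fin.mk_one, Matrix.cons_val_one, Matrix.cons_val_zero]
    rw [← Complex.exp_neg, ← neg_mul (-(π * Complex.I) : ℂ), neg_neg, e1, e2]
    linear_combination (Complex.I) * h -
      A * (Complex.exp (-(π * b) * Complex.I) - Complex.exp (π * b * Complex.I)) * Complex.I_mul_I

theorem eventually_far {Z : Set ℂ} (hZ : IsClosed Z) {u : ℂ} (hu : u ∉ Z) :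
    ∀ᶠ l : ℝ in atTop, ∀ α ∈ Z, exp (-l) ≤ ‖α - u‖ := by
  obtain ⟨δ, hδ, h⟩ := Metric.isOpen_iff.1 hZ.isOpen_compl u hu
  filter_upwards [tendsto_exp_neg_atTop_nhds_zero.eventually (ge_mem_nhds hδ)] with l hl α hα
  refine hl.trans (not_lt.1 fun h1 => h (mem_ball_iff_norm.2 h1) hα)

theorem eventually_ell {b : ℝ} (hb : Irrational b) {J : ℕ} (hJ : J ≠ 0) :
    ∀ᶠ l : ℝ in atTop, 2 * exp (-l) ≤ ‖Complex.exp (lam 0 * b) - Complex.exp (lam 1 * b)‖ ∧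
      ∀ i α, α ^ (J + 1) - α = 0 → exp (-l) ≤ ‖α - Complex.exp (lam i * b)‖ := by
  have hJ' : (J : ℤ) ≠ 0 := by exact_mod_cast hJ
  refine Eventually.and ?_ (eventually_all.2 fun i => eventually_far
    (Z := {α | α ^ (J + 1) - α = 0}) (isClosed_eq (by fun_prop) continuous_const) fun h => ?_)
  · have h0 : 0 < ‖Complex.exp (lam 0 * b) - Complex.exp (lam 1 * b)‖ / 2 := by
      refine half_pos (norm_pos_iff.2 (sub_ne_zero.2 fun h => cexp_ne_one hb two_ne_zero ?_))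
      rw [← div_eq_one_iff_eq (Complex.exp_ne_zero _), ← Complex.exp_sub] at h
      rw [← h]
      congr 1
      simp [lam]
      ring
    filter_upwards [tendsto_exp_neg_atTop_nhds_zero.eventually (ge_mem_nhds h0)] with l hl
    linarith
  · rw [Set.mem_ofPred_eq, sub_eq_zero, pow_succ, mul_eq_right₀ (Complex.exp_ne_zero _),
      ← Complex.exp_nat_mul] at h
    fin_cases i
    · exact cexp_ne_one hb hJ' (by simpa [lam] using h)
    · exact cexp_ne_one hb (neg_ne_zero.2 hJ') (by simpa [lam] using h)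

theorem exists_J {c : ℕ} (hc : 0 < c) (m : ℕ) :
    ∃ J : ℕ, J ≠ 0 ∧ ∀ j, 1 ≤ j → j < m → ∃ k, J = 2 * c * (j * k) :=
  ⟨2 * c * m.factorial, mul_ne_zero (by omega) (Nat.factorial_ne_zero _), fun j h1 h2 => by
    obtain ⟨k, hk⟩ := Nat.dvd_factorial h1 h2.le
    exact ⟨k, by rw [hk]⟩⟩

theorem core {E : Type*} [Field E] [NumberField E] (β A : E) {c : ℕ} (hc : 0 < c) (p q : ℤ)
    (hβ : c * β * (p - β) = q) (𝒮 : Finset (E →ₐ[ℚ] ℂ)) (hne : 𝒮.Nonempty)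
    (h𝒮 : ∀ σ ∈ 𝒮, ∃ b : ℝ, Irrational b ∧ σ β = b ∧ 2 * σ A * Complex.sin (π * b) = π)
    (hm : c * Module.finrank ℚ E ^ 2 ≤ 20 * 𝒮.card ^ 2) : False := by
  classical
  have hs1 : 1 ≤ 𝒮.card := hne.card_pos
  have hsd : 𝒮.card ≤ Module.finrank ℚ E := AlgHom.card ℚ E ℂ ▸ Finset.card_le_univ _
  have hc20 : c ≤ 20 := by
    have h1 := hm.trans (Nat.mul_le_mul_left 20 (Nat.pow_le_pow_left hsd 2))
    exact Nat.le_of_mul_le_mul_right h1 (pow_pos (by omega) 2)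
  obtain ⟨β', hβ'⟩ : ∃ β' : 𝓞 E, algebraMap _ E β' = c * β := by
    refine IsIntegralClosure.isIntegral_iff.1 (show IsIntegral ℤ ((c : E) * β) from
      ⟨X ^ 2 - C (c * p : ℤ) * X + C (c * q : ℤ), by monicity!, ?_⟩)
    rw [eval₂_add, eval₂_sub, eval₂_mul, eval₂_pow, eval₂_X, eval₂_C, eval₂_C]
    simp only [eq_intCast]
    push_cast
    linear_combination (-(c : E)) * hβ
  obtain ⟨d, a, hd, ha⟩ := IsAlgebraic.exists_nsmul_eq (𝓞 E)
    ((IsFractionRing.isAlgebraic_iff ℤ ℚ E).2 (Algebra.IsAlgebraic.isAlgebraic A))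
  have hσβ : ∀ σ : E →ₐ[ℚ] ℂ, em σ β' = ((c : ℤ) : ℂ) * σ β := fun σ => by
    simp [em, hβ']
  have hσa : ∀ σ : E →ₐ[ℚ] ℂ, em σ a = d * σ A := fun σ => by
    simp [em, ← ha]
  have hσq : ∀ σ : E →ₐ[ℚ] ℂ, ((c : ℤ) : ℂ) * σ β * (p - σ β) = q := fun σ => by
    simpa using congrArg σ hβ
  obtain ⟨K0, hK0⟩ := Finite.exists_le fun σ : E →ₐ[ℚ] ℂ =>
    1 + ‖σ A‖ + ‖σ β‖ + ‖p - σ β‖ + 2 / ‖σ β - (p - σ β)‖
  have hK : ∀ σ : E →ₐ[ℚ] ℂ, 1 ≤ K0 ∧ ‖σ A‖ ≤ K0 ∧ ‖σ β‖ ≤ K0 ∧ ‖p - σ β‖ ≤ K0 ∧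
      2 / ‖σ β - (p - σ β)‖ ≤ K0 := fun σ => by
    have h1 := hK0 σ
    have h2 : 0 ≤ 2 / ‖σ β - (p - σ β)‖ := by positivity
    have h3 := norm_nonneg (σ A)
    have h4 := norm_nonneg (σ β)
    have h5 := norm_nonneg (p - σ β)
    refine ⟨?_, ?_, ?_, ?_, ?_⟩ <;> linarith
  obtain ⟨σ₀, hσ₀⟩ := hne
  have hK01 := (hK σ₀).1
  have hc' : (1 : ℝ) ≤ c := by exact_mod_cast hc
  have hd' : (1 : ℝ) ≤ d := by exact_mod_cast Nat.pos_of_ne_zero hd
  obtain ⟨K, hKd⟩ : ∃ K : ℝ, K = 12 * (c * d) * K0 ^ 2 := ⟨_, rfl⟩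
  have hKa : K0 ≤ K0 ^ 2 := le_self_pow₀ hK01 two_ne_zero
  have hKb : (c : ℝ) ≤ c * d := le_mul_of_one_le_right (by linarith) hd'
  have hKc : c * K0 ≤ c * d * K0 ^ 2 := by gcongr
  have hKe : K0 ≤ c * K0 := le_mul_of_one_le_left (by linarith) hc'
  have hKf : c * d ≤ c * d * K0 ^ 2 := le_mul_of_one_le_right (by positivity) (hK01.trans hKa)
  have hK1 : 1 ≤ K := by linarith
  obtain ⟨J, hJ0, hJ⟩ := exists_J hc 50000000
  choose! b hb1 hb2 hb3 using h𝒮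
  obtain ⟨l, hl0, hl⟩ := ((eventually_ge_atTop 0).and
    ((eventually_all_finset 𝒮).2 fun σ hσ => eventually_ell (hb1 σ hσ) hJ0)).exists
  obtain ⟨y, hy1, hy2, hy3⟩ : ∃ y : ℕ, 10 ^ 9 ≤ y ∧
      2 * 10 ^ 10 * K ^ 3 ≤ log ((1000 * y : ℕ) : ℝ) ∧
      20 * (10 ^ 6 + 3000 * l + 10 ^ 7 * (Module.finrank ℚ E + 1) * K) ≤
        log ((1000 * y : ℕ) : ℝ) := by
    have ht : Tendsto (fun y : ℕ => log ((1000 * y : ℕ) : ℝ)) atTop atTop :=
      tendsto_log_atTop.comp (tendsto_natCast_atTop_atTop.comp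
        (tendsto_id.const_mul_atTop' (by norm_num)))
    exact ((eventually_ge_atTop _).and ((ht.eventually_ge_atTop _).and
      (ht.eventually_ge_atTop _))).exists
  obtain ⟨X₂, par⟩ : ∃ X₂, Par c y X₂ :=
    ⟨Nat.sqrt (c * (1000 * y) ^ 2), hc, hc20, hy1, Nat.sqrt_le _, Nat.lt_succ_sqrt _⟩
  obtain ⟨Nn, hNn⟩ : ∃ Nn, Nn = (2 * (1000 * y) + 1) * (2 * X₂ + 1) * (1000 * y ^ 2) := ⟨_, rfl⟩
  obtain ⟨D, hD⟩ : ∃ D, D = 670000 * c * Nn * y ^ 2 := ⟨_, rfl⟩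
  obtain ⟨n, hn⟩ : ∃ n : ℝ, n = ((1000 * y : ℕ) : ℝ) := ⟨_, rfl⟩
  obtain ⟨L, hL⟩ : ∃ L : ℝ, L = ((1000 * y ^ 2 : ℕ) : ℝ) := ⟨_, rfl⟩
  obtain ⟨f1, f2, f3, f4, f5, f6⟩ := par.real_facts hn hL (N := Nn) (by rw [hNn])
  rw [← hn] at hy2 hy3
  have hdeg := par.degOK
  rw [← hNn, ← hD] at hdeg
  have hcard : Fintype.card (idx (1000 * y) X₂ (1000 * y ^ 2)) = Nn := by
    rw [Fintype.card_coe, card_idx, hNn]
  have hn1 : 1 < n := by linarith
  have g1 : n ≤ n ^ 2 := le_self_pow₀ hn1.le two_ne_zero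
  have g2 : n ^ 2 ≤ L * n ^ 2 := le_mul_of_one_le_left (by positivity) f3
  have hN1 : (1 : ℝ) ≤ Nn := by linarith
  have g0 : 0 ≤ Nn * L := by positivity
  have g3 : L ^ 2 ≤ Nn := by
    have : L * L ≤ L * n ^ 2 := by gcongr; linarith
    linarith
  have g4 : L * n ≤ Nn := le_trans (by gcongr) f4
  have g5 : n ^ 4 ≤ 1000 * Nn := by
    have : n ^ 4 = 1000 * (L * n ^ 2) := by rw [← mul_assoc, ← f2]; ring
    linarith
  have hlog : 1 ≤ log n := le_trans (by nlinarith [one_le_pow₀ (n := 3) hK1]) hy2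
  have hDr : ((2 * D : ℕ) : ℝ) = 134 / 100 * c * Nn * n ^ 2 := by
    rw [hD, hn]; push_cast; ring
  have hD27 : ((2 * D : ℕ) : ℝ) ≤ 27000 * (Nn * L) := by
    have : (c : ℝ) ≤ 20 := by exact_mod_cast hc20
    rw [hDr, f2]
    nlinarith [mul_nonneg (zero_le_one.trans hN1) (zero_le_one.trans f3)]
  have hX5 : (X₂ : ℝ) ≤ 5 * n := by rw [hn]; exact_mod_cast par.X_le.trans (by omega)
  have hY2 : ((1000 * y + 2 * 50000000 : ℕ) : ℝ) ≤ 2 * n := by
    rw [hn]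
    have : 1000000000 ≤ y := hy1
    exact_mod_cast (by linarith : 1000 * y + 2 * 50000000 ≤ 2 * (1000 * y))
  have hmu : ∀ (s : idx (1000 * y) X₂ (1000 * y ^ 2)) (z : ℂ), ‖z‖ ≤ K0 →
      ‖mu z s.1.1‖ ≤ 6 * K0 * n := fun s z hz =>
    norm_mu_le (mem_idx.1 s.2).1 hn.ge hX5 hz hK01
  have hpt : ∀ (r : idx X₂ (1000 * y + 2 * 50000000) (1000 * y ^ 2 + y ^ 2)) (z : ℂ), ‖z‖ ≤ K0 →
      ‖pt c z r.1.1‖ ≤ K * n := fun r z hz =>
    (norm_pt_le (mem_idx.1 r.2).1 hX5 hY2 hz hK01 hc).trans (by gcongr; linarith)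
  have hord : ∀ ρ : idx (1000 * y) X₂ (1000 * y ^ 2) ↪
      idx X₂ (1000 * y + 2 * 50000000) (1000 * y ^ 2 + y ^ 2),
      ((∑ i, (ρ i).1.2 : ℕ) : ℝ) ≤ 502 / 1000 * (Nn * L) := fun ρ => by
    have h1 : (1000 : ℝ) * (2 * (∑ i, (ρ i).1.2 : ℕ)) ≤ 1004 * (Nn * L) := by
      rw [hL, hNn]
      exact_mod_cast par.ord_le ρ
    linarith
  have hord' : ((∑ i : idx (1000 * y) X₂ (1000 * y ^ 2), i.1.2 : ℕ) : ℝ) ≤ 1 / 2 * (Nn * L) := by
    have h1 := sum_ord_idx (1000 * y) X₂ (1000 * y ^ 2)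
    rw [← Finset.sum_coe_sort, sq (1000 * y ^ 2), ← mul_assoc, ← hNn] at h1
    have h2 : (2 : ℝ) * (∑ i : idx (1000 * y) X₂ (1000 * y ^ 2), i.1.2 : ℕ) ≤ Nn * L := by
      rw [hL]
      exact_mod_cast h1
    linarith
  have hc0 : (0 : ℤ) ≤ c := Int.natCast_nonneg c
  have hea : ∀ σ : E →ₐ[ℚ] ℂ, em σ a * ((c : ℤ) : ℂ) = ((c * d : ℕ) : ℂ) * σ A := fun σ => by
    rw [hσa]; push_cast; ring
  have hΛ : 0 ≤ Nn * (2 * log n) := by positivity
  obtain ⟨P, hP⟩ : ∃ P : (idx (1000 * y) X₂ (1000 * y ^ 2) ↪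
      idx X₂ (1000 * y + 2 * 50000000) (1000 * y ^ 2 + y ^ 2)) → (𝓞 E)[X],
      ∀ ρ, P ρ = Pm c p q (c * d) a β' D (fun i => (ρ i).1) Subtype.val := ⟨_, fun _ => rfl⟩
  have m1 : 1 ≤ 2 * D := by
    have : (0 : ℝ) < (2 * D : ℕ) := by rw [hDr]; positivity
    exact_mod_cast this
  have m2 : ∀ ρ, (P ρ).natDegree ≤ 2 * D := fun ρ => by
    rw [hP]
    exact natDegree_Pm hc0 _ _ _ _ _ (hdeg ρ)
  have m3 : ∀ (σ : E →ₐ[ℚ] ℂ) ρ α, ((2 * D : ℕ) : ℝ) ^ 2 * ‖(P ρ).eval₂ (em σ) α‖ ≤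
      exp (Nn * L * (1002 / 1000 * log n + 10 ^ 5 * K)) * max 1 ‖α‖ ^ (2 * D) := by
    intro σ ρ α
    have h1 := norm_Pm_le (em σ) α hc0 p q (e := c * d) (a := a) (β := β') (hdeg ρ) hK1
      hn1.le (by push_cast; linarith) (fun i => ?_) (fun i => ?_) fun i => ?_
    · rw [hP]
      refine (mul_le_mul_of_nonneg_left h1 (by positivity)).trans ?_
      rw [← mul_assoc, hcard]
      refine mul_le_mul_of_nonneg_right (H_bound (Nat.cast_nonneg _) hD27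
        (by exact_mod_cast hN1) f3 f5 ?_ hK1 hn1.le) (by positivity)
      rw [Nat.cast_add]
      linarith [hord ρ]
    · have e : em σ (a * ((c : ℤ) * i.1.1.1 + i.1.1.2 * β')) =
          ((c * d : ℕ) : ℂ) * σ A * mu (σ β) i.1.1 := by
        simp only [map_mul, map_add, map_intCast, hσa, hσβ, mu]
        push_cast
        ring
      rw [e, norm_mul, norm_mul, Complex.norm_natCast, Nat.cast_mul]
      calc _ ≤ 2 * (c * d * K0 * (6 * K0 * n)) := by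
            gcongr
            · exact (hK σ).2.1
            · exact hmu i _ (hK σ).2.2.1
        _ = _ := by rw [hKd]; ring
    · have e : em σ ((ρ i).1.1.1 - (ρ i).1.1.2 * ((c : ℤ) * p - β')) =
          pt c (p - σ β) (ρ i).1.1 := by
        simp only [map_mul, map_sub, map_intCast, hσβ, pt]
        ring
      rw [e]
      exact hpt _ _ (hK σ).2.2.2.1
    · have h2 : (i.1.2 : ℝ) ≤ L := by rw [hL]; exact_mod_cast (mem_idx.1 i.2).2.le
      linarith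
  have m4 : (X ^ (J + 1) - X : (𝓞 E)[X]).Monic := monic_X_pow_sub (by
    rw [degree_X]
    exact_mod_cast (by omega : 1 < J + 1))
  have m5 : ∀ α, (X ^ (J + 1) - X : (𝓞 E)[X]).eval₂ (em σ₀) α ≠ 0 →
      ∃ ρ, (P ρ).eval₂ (em σ₀) α ≠ 0 := by
    intro α hα
    simp only [eval₂_sub, eval₂_pow, eval₂_X] at hα
    have hα0 : α ≠ 0 := fun h0 => hα (by simp [h0])
    have hA0 : σ₀ A ≠ 0 := fun h0 => by
      have := hb3 σ₀ hσ₀
      rw [h0, mul_zero, zero_mul] at this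
      exact pi_ne_zero (by exact_mod_cast this.symm)
    have hirr : ∀ i j : ℤ, (i : ℂ) + j * σ₀ β = 0 → j = 0 := by
      rw [hb2 σ₀ hσ₀]
      exact irr_lin (hb1 σ₀ hσ₀)
    have hz := zero_est (p := p) (q := q) (L := 1000 * y ^ 2) hirr hc.ne' hA0 hα0 (by norm_num)
      (fun j h1 h2 h3 => hα (by
        obtain ⟨m, hm⟩ := hJ j h1 h2
        rw [pow_succ, hm, pow_mul, pow_mul, h3, one_pow, one_mul, sub_self])) par.hM
    obtain ⟨ρ, hρ⟩ := exists_minor _ hz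
    refine ⟨ρ, ?_⟩
    rw [hP, eval₂_Pm (em σ₀) hα0 hc0 p q _ (hσβ σ₀) (hea σ₀) (hdeg ρ)]
    exact mul_ne_zero (mul_ne_zero (pow_ne_zero _ hα0) (pow_ne_zero _
      (by exact_mod_cast mul_ne_zero hc.ne' hd))) hρ
  have m6 : ∀ σ ∈ 𝒮, ∀ ρ i j α,
      ‖α - Complex.exp (lam i * b σ)‖ ≤ exp (-(vv j * (Nn * (2 * log n)))) →
      ((2 * D : ℕ) : ℝ) ^ 2 * ‖(P ρ).eval₂ (em σ) α‖ ≤
        exp (-psi (fun k => vv k * (Nn * (2 * log n))) (fun k => gg k * Nn)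
          (vv j * (Nn * (2 * log n)))) := by
    intro σ hσ ρ i j α hα
    obtain ⟨l1, l2, l3⟩ := lam_facts (hb3 σ hσ) i
    have hW : 1 ≤ vv j * (Nn * (2 * log n)) := by
      have h1 : (20000 : ℝ) * 1 ≤ Nn * (2 * log n) :=
        mul_le_mul (by linarith) (by linarith) zero_le_one (by linarith)
      have h2 := mul_le_mul_of_nonneg_right (vv_bd j).1 hΛ
      linarith
    obtain ⟨hα0, hα2, -⟩ := near_bounds (A := 0) l2 hW hα
    have hbb : σ β ≠ p - σ β := fun h0 => by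
      have := irr_lin (hb1 σ hσ) (-p) 2 (by
        rw [← hb2 σ hσ]; push_cast; linear_combination h0)
      omega
    have hn0 : 0 ≤ n := by linarith
    have k6 : 6 * K0 * n ≤ K * n := mul_le_mul_of_nonneg_right (by linarith) hn0
    have h1 := det_me_le (hσq σ) l1 (by rw [hb2 σ hσ]) l2 l3 (K := K) (x := xx j)
      (T := 1000 * y ^ 2 + y ^ 2) (L := 1000 * y ^ 2) hbb
      (by linarith [(hK σ).2.1, (hK σ).2.2.2.2]) hK1 hn1 hW hα (xx_le j).1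
      (r := fun i => (ρ i).1) (s := Subtype.val)
      (fun i => ⟨hpt _ _ (hK σ).2.2.2.1, hpt _ _ (hK σ).2.2.1, (mem_idx.1 (ρ i).2).2.le⟩)
      fun i => ⟨(hmu i _ (hK σ).2.2.1).trans k6, (hmu i _ (hK σ).2.2.2.1).trans k6,
        (mem_idx.1 i.2).2.le⟩
    rw [hP, eval₂_Pm (em σ) hα0 hc0 p q _ (hσβ σ) (hea σ) (hdeg ρ), psi_scale _ _ hΛ,
      norm_mul, norm_mul, norm_pow, norm_pow, Complex.norm_natCast]
    rw [hcard] at h1
    exact le_trans (mul_le_mul_of_nonneg_left (mul_le_mul_of_nonneg_left h1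
      (by positivity)) (by positivity)) (S_bound (by rw [← hL]; exact_mod_cast hD27)
      (by rw [hL] at f3; exact_mod_cast f3) (by rw [← hL]; linarith [hord ρ]) (by omega)
      (by rw [← hL]; exact g3) (by rw [← hL]; exact g4) g5
      hK1 hn1 (xx_le j).2 (by linarith [(vv_bd j).1]) (vv_bd j).2 (node_ineq j)
      (Nat.cast_nonneg _) (by push_cast; linarith) (norm_nonneg _) hα2 hy2)
  have main := core_abs (W := fun k => vv k * (Nn * (2 * log n))) (cc := fun k => gg k * Nn)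
    (fun k => mul_nonneg (by linarith [(vv_bd k).1]) hΛ)
    (fun k => mul_nonneg (gg_nonneg k) (by positivity)) P m1 m2 (by positivity) hl0 m3 m4 𝒮 m5
    fun σ hσ => ⟨fun i => Complex.exp (lam i * b σ), fun i => (lam_facts (hb3 σ hσ) i).2.1,
      (hl σ hσ).1, fun i α hα => (hl σ hσ).2 i α (by simpa [eval₂_pow] using hα), m6 σ hσ⟩
  have e1 : ∑ k, gg k * Nn * psi (fun k => vv k * (Nn * (2 * log n))) (fun k => gg k * Nn)
      (vv k * (Nn * (2 * log n))) =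
      Nn * (2 * log n) * Nn * Nn * ∑ k, gg k * psi vv gg (vv k) := by
    rw [Finset.mul_sum]
    exact Finset.sum_congr rfl fun k _ => by rw [psi_scale _ _ hΛ]; ring
  rw [e1, ← Finset.sum_mul] at main
  refine final_ineq (r := √c) (by exact_mod_cast hs1) (Nat.cast_nonneg _) (sqrt_nonneg _) ?_ hN1
    (by linarith) hl0 hK1 (by linarith)
    (by linarith [log_le_sub_one_of_pos (zero_lt_one.trans hn1)])
    sum_psi (Finset.sum_nonneg fun k _ => gg_nonneg k) sum_gg hDr (by linarith)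
    (by exact_mod_cast hc20) (by linarith) (by linarith) g5 f4 f6 hy3 main
  refine abs_le_of_sq_le_sq' ?_ (by positivity) |>.2
  have h1 : (c : ℝ) * (Module.finrank ℚ E : ℝ) ^ 2 ≤ 20 * (𝒮.card : ℝ) ^ 2 := by exact_mod_cast hm
  rw [mul_pow, mul_pow, sq_sqrt (by linarith)]
  nlinarith [sq_nonneg (𝒮.card : ℝ)]

end Pool.Agent.P.MP_26ad15_nt.Q
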