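import Mathlib

/-! Definitions for the interpolation determinants attached to a real quadratic number. -/

namespace Pool.Agent.P.MP_26ad15_nt.Q

open Polynomial

/-- `y ^ t * ((∂ + x / y) ^ t z ^ l) (w)` -/
def ent {R : Type*} [CommRing R] (t l : ℕ) (x y w : R) : R :=
  ∑ j ∈ Finset.range (t + 1),
    ((t.choose j * l.descFactorial j : ℕ) : R) * x ^ (t - j) * y ^ j * w ^ (l - j)

/-- coefficient of `β` in `(μ₁ + μ₂ β) (w₁ - w₂ c β')` -/
def kk (c : ℤ) (μ w : ℤ × ℤ) : ℤ := μ.2 * w.1 + c * μ.1 * w.2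

/-- constant coefficient of `(μ₁ + μ₂ β) (w₁ - w₂ c β')` -/
def cz (c p q : ℤ) (μ w : ℤ × ℤ) : ℤ := μ.1 * w.1 - q * μ.2 * w.2 - c * p * μ.1 * w.2

/-- an index: a lattice point and an order -/
abbrev Ix := (ℤ × ℤ) × ℕ

/-- the exponent of a column -/
noncomputable def mu (b : ℂ) (μ : ℤ × ℤ) : ℂ := μ.1 + μ.2 * b

/-- the point of a row; `b'` is the conjugate -/
noncomputable def pt (c : ℤ) (b' : ℂ) (w : ℤ × ℤ) : ℂ := w.1 - w.2 * (c * b')

/-- the formal value of the exponential -/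
noncomputable def BB (c p q : ℤ) (α : ℂ) (μ w : ℤ × ℤ) : ℂ :=
  (-1) ^ cz c p q μ w * α ^ kk c μ w

/-- the matrix entry in row `r`, column `s` -/
noncomputable def me (c p q : ℤ) (b A α : ℂ) (r s : Ix) : ℂ :=
  ent r.2 s.2 (A * (α - α⁻¹) * mu b s.1) 1 (pt c (p - b) r.1) * BB c p q α s.1 r.1

/-- the polynomial part of an entry -/
noncomputable def pe {R : Type*} [CommRing R] (c p q : ℤ) (e : ℕ) (a β : R) (r s : Ix) : R[X] :=
  C (((cz c p q s.1 r.1).negOnePow : ℤ) : R) *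
    ent r.2 s.2 (C (a * (c * s.1.1 + s.1.2 * β)) * (X ^ 2 - 1)) (C (e : R) * X)
      (C (r.1.1 - r.1.2 * (c * p - β)))

/-- the determinant as a polynomial -/
noncomputable def Pm {R ι : Type*} [CommRing R] [Fintype ι] [DecidableEq ι] (c p q : ℤ) (e : ℕ)
    (a β : R) (D : ℕ) (r s : ι → Ix) : R[X] :=
  ∑ π : Equiv.Perm ι, C (((Equiv.Perm.sign π : ℤˣ) : ℤ) : R) *
    (X ^ ((D : ℤ) + ∑ i, (kk c (s i).1 (r (π i)).1 - (r (π i)).2)).toNat *
      ∏ i, pe c p q e a β (r (π i)) (s i))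

/-- a box of lattice points -/
noncomputable def box (X Y : ℕ) : Finset (ℤ × ℤ) :=
  Finset.Icc (-(X : ℤ)) X ×ˢ Finset.Icc (-(Y : ℤ)) Y

/-- a box of indices -/
noncomputable def idx (X Y L : ℕ) : Finset Ix := box X Y ×ˢ Finset.range L

/-- `∑ (s + 1) (x - s)₊² / 2` -/
noncomputable def Gf (x : ℝ) (K : ℕ) : ℝ :=
  ∑ s ∈ Finset.range K, ((s : ℝ) + 1) * max (x - s) 0 ^ 2 / 2

/-- the operator `v ∂ + x` -/
noncomputable def Dop (v : ℂ[X]) (x : ℂ) : Module.End ℂ ℂ[X] :=
  (LinearMap.mulLeft ℂ v) ∘ₗ Polynomial.derivative + x • LinearMap.id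

theorem Dop_apply (v : ℂ[X]) (x : ℂ) (f : ℂ[X]) :
    Dop v x f = v * derivative f + C x * f := by
  simp [Dop, smul_eq_C_mul]

theorem map_ent {R S : Type*} [CommRing R] [CommRing S] (φ : R →+* S) (t l : ℕ) (x y w : R) :
    φ (ent t l x y w) = ent t l (φ x) (φ y) (φ w) := by
  simp only [ent, map_sum, map_mul, map_pow, map_natCast]

theorem ent_smul {R : Type*} [CommRing R] (t l : ℕ) (x y w : R) :
    ent t l (y * x) y w = y ^ t * ent t l x 1 w := by
  simp only [ent, Finset.mul_sum]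
  refine Finset.sum_congr rfl fun j hj => ?_
  have : y ^ t = y ^ (t - j) * y ^ j := by
    rw [← pow_add, Nat.sub_add_cancel (Nat.lt_succ_iff.1 (Finset.mem_range.1 hj))]
  rw [this, mul_pow]
  ring

theorem eval_Dop_pow (t l : ℕ) (x w : ℂ) :
    ((Dop 1 x ^ t) (X ^ l)).eval w = ent t l x 1 w := by
  have h : Dop 1 x = (Polynomial.derivative : Module.End ℂ ℂ[X]) + x • 1 := by
    ext1 f
    refine LinearMap.ext fun a => ?_
    simp [Dop]
  have hc : Commute (Polynomial.derivative : Module.End ℂ ℂ[X]) (x • 1) :=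
    (Commute.one_right _).smul_right x
  rw [h, hc.add_pow, LinearMap.sum_apply, eval_finsetSum, ent]
  refine Finset.sum_congr rfl fun j _ => ?_
  rw [_root_.smul_pow, one_pow, Module.End.mul_apply, Module.End.mul_apply, Module.End.natCast_apply,
    LinearMap.smul_apply, Module.End.one_apply, map_smul, map_nsmul, Module.End.pow_apply,
    iterate_derivative_X_pow_eq_smul]
  simp
  ring

theorem BB_add (c p q : ℤ) {α : ℂ} (hα : α ≠ 0) (μ w w' : ℤ × ℤ) :
    BB c p q α μ (w + w') = BB c p q α μ w * BB c p q α μ w' := by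
  have h1 : cz c p q μ (w + w') = cz c p q μ w + cz c p q μ w' := by
    simp only [cz, Prod.fst_add, Prod.snd_add]; ring
  have h2 : kk c μ (w + w') = kk c μ w + kk c μ w' := by
    simp only [kk, Prod.fst_add, Prod.snd_add]; ring
  rw [BB, h1, h2, zpow_add₀ hα, zpow_add₀ (by norm_num), BB, BB]
  ring

theorem BB_ne (c p q : ℤ) {α : ℂ} (hα : α ≠ 0) (μ w : ℤ × ℤ) : BB c p q α μ w ≠ 0 :=
  mul_ne_zero (zpow_ne_zero _ (by norm_num)) (zpow_ne_zero _ hα)

theorem mem_box {X Y : ℕ} {w : ℤ × ℤ} : w ∈ box X Y ↔ |w.1| ≤ X ∧ |w.2| ≤ Y := by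
  simp only [box, Finset.mem_product, Finset.mem_Icc, abs_le]

theorem mem_idx {X Y L : ℕ} {r : Ix} : r ∈ idx X Y L ↔ r.1 ∈ box X Y ∧ r.2 < L := by
  simp only [idx, Finset.mem_product, Finset.mem_range]

theorem card_box (X Y : ℕ) : (box X Y).card = (2 * X + 1) * (2 * Y + 1) := by
  simp only [box, Finset.card_product, Int.card_Icc]
  congr 1 <;> omega

theorem card_idx (X Y L : ℕ) : (idx X Y L).card = (2 * X + 1) * (2 * Y + 1) * L := by
  rw [idx, Finset.card_product, card_box, Finset.card_range]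

/-- a matrix with trivial kernel has a nonzero maximal minor -/
theorem exists_minor {ι κ : Type*} [Fintype ι] [DecidableEq ι] [Fintype κ] (M : κ → ι → ℂ)
    (h : ∀ v : ι → ℂ, (∀ r, ∑ j, M r j * v j = 0) → v = 0) :
    ∃ ρ : ι ↪ κ, (Matrix.of fun i j => M (ρ i) j).det ≠ 0 := by
  classical
  have hspan : Submodule.span ℂ (Set.range M) = ⊤ := by
    by_contra hne
    obtain ⟨φ, hφ, hφ'⟩ := Submodule.exists_le_ker_of_lt_top _ (lt_top_iff_ne_top.2 hne)
    apply hφ
    have := h (fun j => φ (Pi.single j 1)) fun r => by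
      have h1 : φ (M r) = 0 := hφ' (Submodule.subset_span ⟨r, rfl⟩)
      rw [← h1, LinearMap.pi_apply_eq_sum_univ]
      refine Finset.sum_congr rfl fun j _ => ?_
      rw [smul_eq_mul]
      congr 2
      ext k
      simp [Pi.single_apply, eq_comm]
    refine LinearMap.pi_ext fun j x => ?_
    have h2 : (Pi.single j x : ι → ℂ) = x • Pi.single j 1 := by
      rw [← Pi.single_smul, smul_eq_mul, mul_one]
    rw [h2, map_smul, congrFun this j]
    simp
  obtain ⟨κ', a, ha, hsp, hli⟩ := exists_linearIndependent' ℂ M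
  have : Finite κ' := Finite.of_injective a ha
  have := Fintype.ofFinite κ'
  have hcard : Fintype.card κ' = Fintype.card ι := by
    have b := Module.Basis.mk hli (by rw [hsp, hspan])
    rw [← Module.finrank_eq_card_basis b, Module.finrank_fintype_fun_eq_card]
  obtain ⟨e⟩ := Fintype.card_eq.1 hcard.symm
  refine ⟨⟨a ∘ e, ha.comp e.injective⟩, ?_⟩
  have hli' : LinearIndependent ℂ (Matrix.of fun i j => M (a (e i)) j).row :=
    hli.comp e e.injective
  have := Matrix.linearIndependent_rows_iff_isUnit.1 hli'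
  exact ((Matrix.isUnit_iff_isUnit_det _).1 this).ne_zero

end Pool.Agent.P.MP_26ad15_nt.Q
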