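import Mathlib

/-! Jensen's inequality, three circles and the size of a resultant. -/

namespace Pool.Agent.P.MP_26ad15_nt.Q

open Polynomial Real

open Filter MeasureTheory Set in
theorem mahler_le (p : ℂ[X]) {S : ℝ} (h : ∀ z : ℂ, ‖z‖ = 1 → ‖p.eval z‖ ≤ S) (hS : 0 < S) :
    p.mahlerMeasure ≤ S := by
  by_cases hp : p = 0
  · simp [hp, hS.le]
  rw [show S = rexp (circleAverage (fun _ ↦ log S) 0 1)
    by simp [circleAverage_def, mul_assoc, exp_log hS], mahlerMeasure_def_of_ne_zero hp,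
    circleAverage_def, smul_eq_mul]
  gcongr
  apply intervalIntegral.integral_mono_ae_restrict (by positivity)
    p.intervalIntegrable_mahlerMeasure (by simp)
  rw [EventuallyLE, eventually_iff_exists_mem]
  use {x : ℝ | eval (circleMap 0 1 x) p ≠ 0}
  constructor
  · rw [mem_ae_iff, compl_def, Measure.restrict_apply' (by simp)]
    apply (Finite.of_sdiff _ <| finite_singleton (2 * π)).measure_zero
    simp only [ne_eq, mem_ofPred_eq, Decidable.not_not, inter_sdiff_assoc, Icc_sdiff_right]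
    rw [ofPred_inter_eq_sep]
    apply Finite.of_finite_image (f := circleMap 0 1) ((Multiset.finite_toSet p.roots).subset _)
      <| fun _ h _ k l ↦ injOn_circleMap_of_abs_sub_le' one_ne_zero (by linarith) h.1 k.1 l
    simp [hp]
  · intro x hx
    exact log_le_log (norm_pos_iff.2 hx) (h _ (by simp))

theorem jensen (f : ℂ[X]) (u : ℂ) {r S : ℝ} (hr : 0 < r) (hS : 0 < S)
    (h : ∀ α, ‖α - u‖ ≤ r → ‖f.eval α‖ ≤ S) :
    ‖f.leadingCoeff‖ * (f.roots.map fun α => max r ‖α - u‖).prod ≤ S := by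
  have hr' : (r : ℂ) ≠ 0 := by exact_mod_cast hr.ne'
  have h1 := mahler_le (f.comp (C (r : ℂ) * X + C u)) (S := S) (fun z hz => by
    rw [eval_comp]
    exact h _ (by simp [hz, abs_of_pos hr])) hS
  refine le_trans (le_of_eq ?_) h1
  conv_rhs => rw [(IsAlgClosed.splits f).eq_prod_roots]
  rw [mul_comp, C_comp, mahlerMeasure_mul, mahlerMeasure_const, multiset_prod_comp,
    prod_mahlerMeasure_eq_mahlerMeasure_prod, Multiset.map_map, Multiset.map_map]
  congr 2
  refine Multiset.map_congr rfl fun α _ => ?_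
  have e : (X - C α : ℂ[X]).comp (C (r : ℂ) * X + C u) = C (r : ℂ) * X + C (u - α) := by
    simp only [sub_comp, X_comp, C_comp, map_sub]
    ring
  simp only [Function.comp_apply]
  rw [e, mahlerMeasure_C_mul_X_add_C hr', norm_sub_rev, Complex.norm_real, Real.norm_eq_abs,
    abs_of_pos hr]

open Complex.HadamardThreeLines in
theorem three_circ (g : ℂ[X]) (u : ℂ) {a b ω A B : ℝ} (hab : a < b) (h1 : a ≤ ω) (h2 : ω ≤ b)
    (ha : ∀ α, ‖α - u‖ ≤ exp (-a) → ‖g.eval α‖ ≤ exp A)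
    (hb : ∀ α, ‖α - u‖ ≤ exp (-b) → ‖g.eval α‖ ≤ exp B) {α : ℂ} (hα : ‖α - u‖ = exp (-ω)) :
    ‖g.eval α‖ ≤ exp ((1 - (ω - a) / (b - a)) * A + (ω - a) / (b - a) * B) := by
  have h0 : α - u ≠ 0 := norm_pos_iff.1 (hα ▸ exp_pos _)
  have hre : (-Complex.log (α - u)).re = ω := by
    rw [Complex.neg_re, Complex.log_re, hα, log_exp, neg_neg]
  have hn : ∀ z : ℂ, ‖u + Complex.exp (-z) - u‖ = exp (-z.re) := fun z => by
    rw [add_sub_cancel_left, Complex.norm_exp, Complex.neg_re]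
  have := norm_le_interp_of_mem_verticalClosedStrip'
    (f := fun z => g.eval (u + Complex.exp (-z))) (z := -Complex.log (α - u)) (a := exp A)
    (b := exp B) hab (by rw [verticalClosedStrip, Set.mem_preimage, hre]; exact ⟨h1, h2⟩)
    (Differentiable.diffContOnCl (g.differentiable.comp (by fun_prop)))
    ⟨exp A, by
      rintro _ ⟨z, hz, rfl⟩
      exact ha _ (by rw [hn]; exact exp_le_exp.2 (neg_le_neg hz.1))⟩
    (fun z hz => ha _ (by rw [hn, show z.re = a from hz]))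
    (fun z hz => hb _ (by rw [hn, show z.re = b from hz]))
  rw [neg_neg, Complex.exp_log h0, add_sub_cancel, hre, ← exp_mul, ← exp_mul, ← exp_add] at this
  convert this using 2
  ring

/-- truncated logarithmic distance -/
noncomputable def mm (W r : ℝ) : ℝ := -log (max (exp (-W)) (min 1 r))

/-- the profile function -/
noncomputable def psi {ι : Type*} [Fintype ι] (W cc : ι → ℝ) (ω : ℝ) : ℝ :=
  ∑ k, cc k * min (W k) ω

theorem exp_neg_mm (W r : ℝ) : exp (-mm W r) = max (exp (-W)) (min 1 r) := by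
  rw [mm, neg_neg, exp_log (lt_max_of_lt_left (exp_pos _))]

theorem mm_le {W r ℓ : ℝ} (hℓ : 0 ≤ ℓ) (h : exp (-ℓ) ≤ r) : mm W r ≤ ℓ := by
  rw [← neg_le_neg_iff, ← exp_le_exp, exp_neg_mm]
  exact le_max_of_le_right (le_min (exp_le_one_iff.2 (by linarith)) h)

theorem profile {ι : Type*} [Fintype ι] {W cc : ι → ℝ} (hW : ∀ k, 0 ≤ W k) (g : ℂ[X]) (u : ℂ)
    {H : ℝ} (hH : 0 ≤ H) (h0 : ∀ α, ‖α - u‖ ≤ 1 → ‖g.eval α‖ ≤ exp H)
    (hs : ∀ j α, ‖α - u‖ ≤ exp (-W j) → ‖g.eval α‖ ≤ exp (-psi W cc (W j))) {α : ℂ}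
    (hα : ‖α - u‖ ≤ 1) : ‖g.eval α‖ ≤ exp (H - ∑ k, cc k * mm (W k) ‖α - u‖) := by
  classical
  set 𝒲 : Finset ℝ := insert 0 (Finset.univ.image W) with h𝒲
  have hm : ∀ k, W k ∈ 𝒲 := fun k =>
    Finset.mem_insert_of_mem (Finset.mem_image_of_mem _ (Finset.mem_univ k))
  have hm0 : (0 : ℝ) ∈ 𝒲 := Finset.mem_insert_self _ _
  have hn : ∀ V ∈ 𝒲, ∀ α, ‖α - u‖ ≤ exp (-V) → ‖g.eval α‖ ≤ exp (H - psi W cc V) := by
    intro V hV α hα
    rcases Finset.mem_insert.1 hV with rfl | hV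
    · have : psi W cc 0 = 0 := Finset.sum_eq_zero fun k _ => by rw [min_eq_right (hW k), mul_zero]
      rw [this, sub_zero]
      exact h0 α (by simpa using hα)
    · obtain ⟨j, -, rfl⟩ := Finset.mem_image.1 hV
      exact (hs j α hα).trans (exp_le_exp.2 (by linarith))
  by_cases hc : ∀ V ∈ 𝒲, ‖α - u‖ ≤ exp (-V)
  · have hV := Finset.max'_mem 𝒲 ⟨0, hm0⟩
    refine (hn _ hV α (hc _ hV)).trans (le_of_eq ?_)
    congr 2
    refine Finset.sum_congr rfl fun k _ => ?_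
    rw [min_eq_left (Finset.le_max' _ _ (hm k)), mm,
      max_eq_left ((min_le_right _ _).trans (hc _ (hm k))), log_exp, neg_neg]
  push Not at hc
  obtain ⟨V, hV, hVr⟩ := hc
  have hr : 0 < ‖α - u‖ := (exp_pos _).trans hVr
  set ω := -log ‖α - u‖ with hω
  have hωe : ‖α - u‖ = exp (-ω) := by rw [hω, neg_neg, exp_log hr]
  have hω0 : 0 ≤ ω := neg_nonneg.2 (log_nonpos hr.le hα)
  have hωV : ω < V := by
    rw [hωe, exp_lt_exp] at hVr
    linarith
  obtain ⟨a, ha, ha'⟩ := Finset.exists_max_image (𝒲.filter (· ≤ ω)) id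
    ⟨0, Finset.mem_filter.2 ⟨hm0, hω0⟩⟩
  obtain ⟨b, hb, hb'⟩ := Finset.exists_min_image (𝒲.filter (ω < ·)) id
    ⟨V, Finset.mem_filter.2 ⟨hV, hωV⟩⟩
  rw [Finset.mem_filter] at ha hb
  have hab : a < b := ha.2.trans_lt hb.2
  refine (three_circ g u hab ha.2 hb.2.le (hn a ha.1) (hn b hb.1) hωe).trans (le_of_eq ?_)
  congr 1
  have e : ∑ k, cc k * mm (W k) ‖α - u‖ =
      (1 - (ω - a) / (b - a)) * psi W cc a + (ω - a) / (b - a) * psi W cc b := by
    simp only [psi, Finset.mul_sum, ← Finset.sum_add_distrib]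
    refine Finset.sum_congr rfl fun k _ => ?_
    have hba : b - a ≠ 0 := (sub_pos.2 hab).ne'
    rw [mm, min_eq_right hα, hωe]
    rcases le_or_gt (W k) ω with h | h
    · have h1 : W k ≤ a := ha' _ (Finset.mem_filter.2 ⟨hm k, h⟩)
      rw [max_eq_left (exp_le_exp.2 (neg_le_neg h)), log_exp, min_eq_left h1,
        min_eq_left (h1.trans hab.le)]
      ring
    · have h1 : b ≤ W k := hb' _ (Finset.mem_filter.2 ⟨hm k, h⟩)
      rw [max_eq_right (exp_le_exp.2 (neg_le_neg h.le)), log_exp, min_eq_right h1,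
        min_eq_right (hab.le.trans h1)]
      field_simp
      ring
  rw [e]
  ring

theorem res_le {G f g : ℂ[X]} (hG : G.Monic) {D : ℕ} (hf : (G * f).natDegree ≤ D) (hf0 : f ≠ 0)
    (hg : g.natDegree ≤ D) {H H' : ℝ} (hH' : 0 ≤ H')
    (hf' : ∀ α, ‖(G * f).eval α‖ ≤ exp H * max 1 ‖α‖ ^ D) (θ : ℂ → ℝ)
    (hg' : ∀ α, ‖g.eval α‖ ≤ exp (H' - θ α) * max 1 ‖α‖ ^ D) :
    ‖resultant f g f.natDegree D‖ ≤ exp (D * H + D * H' - (f.roots.map θ).sum) := by
  have h1 : f.mahlerMeasure ≤ exp H := by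
    have h2 := mahler_le (G * f) (S := exp H) (fun z hz => by simpa [hz] using hf' z) (exp_pos _)
    rw [mahlerMeasure_mul] at h2
    exact (le_mul_of_one_le_left f.mahlerMeasure_nonneg
      (one_le_mahlerMeasure_of_one_le_norm_leadingCoeff (by simp [hG.leadingCoeff]))).trans h2
  have h3 : ∀ s : Multiset ℂ, ‖(s.map g.eval).prod‖ ≤
      exp (s.card * H' - (s.map θ).sum) * (s.map fun α => max 1 ‖α‖).prod ^ D := by
    intro s
    induction s using Multiset.induction_on with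
    | empty => simp
    | cons a s ih =>
      simp only [Multiset.map_cons, Multiset.prod_cons, Multiset.sum_cons, Multiset.card_cons,
        norm_mul]
      refine (mul_le_mul (hg' a) ih (norm_nonneg _) (by positivity)).trans (le_of_eq ?_)
      rw [mul_mul_mul_comm, ← exp_add, mul_pow]
      congr 2
      push_cast
      ring
  have h4 : (f.roots.card : ℝ) ≤ D := by
    rw [natDegree_mul hG.ne_zero hf0] at hf
    exact_mod_cast (card_roots' f).trans ((Nat.le_add_left _ _).trans hf)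
  rw [resultant_eq_prod_eval f g D hg (IsAlgClosed.splits f), norm_mul, norm_pow]
  calc _ ≤ ‖f.leadingCoeff‖ ^ D * (exp (f.roots.card * H' - (f.roots.map θ).sum) *
        (f.roots.map fun α => max 1 ‖α‖).prod ^ D) := by gcongr; exact h3 _
    _ = f.mahlerMeasure ^ D * exp (f.roots.card * H' - (f.roots.map θ).sum) := by
        rw [mahlerMeasure_eq_leadingCoeff_mul_prod_roots, mul_pow]
        ring
    _ ≤ exp H ^ D * exp (D * H' - (f.roots.map θ).sum) := by
        gcongr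
        exact f.mahlerMeasure_nonneg
    _ = _ := by
        rw [← exp_nat_mul, ← exp_add]
        congr 1
        ring

theorem roots_near {G f : ℂ[X]} (hG : G.Monic) {D : ℕ} (hf : (G * f).natDegree ≤ D) (hf0 : f ≠ 0)
    {J ℓ W Φ : ℝ} (hℓ : 0 ≤ ℓ) (hJ : exp (-J) ≤ ‖(G * f).leadingCoeff‖) {u : ℂ}
    (hGr : ∀ α ∈ G.roots, exp (-ℓ) ≤ ‖α - u‖)
    (hs : ∀ α, ‖α - u‖ ≤ exp (-W) → ‖(G * f).eval α‖ ≤ exp (-Φ)) :
    Φ - J - D * ℓ ≤ (f.roots.map fun α => mm W ‖α - u‖).sum := by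
  have h1 := jensen (G * f) u (exp_pos _) (exp_pos _) hs
  rw [roots_mul (mul_ne_zero hG.ne_zero hf0), Multiset.map_add, Multiset.prod_add] at h1
  have h2 : exp (-ℓ) ^ D ≤ (G.roots.map fun α => max (exp (-W)) ‖α - u‖).prod := by
    have h3 : G.roots.card ≤ D := by
      rw [natDegree_mul hG.ne_zero hf0] at hf
      exact (card_roots' G).trans ((Nat.le_add_right _ _).trans hf)
    refine (pow_le_pow_of_le_one (exp_pos _).le (exp_le_one_iff.2 (by linarith)) h3).trans ?_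
    rw [← Multiset.prod_replicate, ← Multiset.map_const']
    exact Multiset.prod_map_le_prod_map₀ _ _ (fun _ _ => (exp_pos _).le)
      fun α hα => le_max_of_le_right (hGr α hα)
  have h3 : exp (-(f.roots.map fun α => mm W ‖α - u‖).sum) ≤
      (f.roots.map fun α => max (exp (-W)) ‖α - u‖).prod := by
    rw [← Multiset.sum_map_neg, exp_multiset_sum, Multiset.map_map]
    refine Multiset.prod_map_le_prod_map₀ _ _ (fun _ _ => (exp_pos _).le) fun α _ => ?_
    simp only [Function.comp_apply, exp_neg_mm]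
    exact max_le_max_left _ (min_le_right _ _)
  have h4 : exp (-J) * (exp (-ℓ) ^ D * exp (-(f.roots.map fun α => mm W ‖α - u‖).sum)) ≤
      exp (-Φ) := by
    refine le_trans ?_ h1
    gcongr
    exact le_trans (by positivity) h2
  rw [← exp_nat_mul, ← exp_add, ← exp_add, exp_le_exp] at h4
  linarith

theorem res_small {ι : Type*} [Fintype ι] {W cc : ι → ℝ} (hW : ∀ k, 0 ≤ W k)
    (hc : ∀ k, 0 ≤ cc k) {G f g : ℂ[X]} (hG : G.Monic) {D : ℕ} (hf : (G * f).natDegree ≤ D)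
    (hf0 : f ≠ 0) (hg : g.natDegree ≤ D) {H J ℓ : ℝ} (hH : 0 ≤ H) (hℓ : 0 ≤ ℓ)
    (hf' : ∀ α, ‖(G * f).eval α‖ ≤ exp H * max 1 ‖α‖ ^ D)
    (hg' : ∀ α, ‖g.eval α‖ ≤ exp H * max 1 ‖α‖ ^ D)
    (hJ : exp (-J) ≤ ‖(G * f).leadingCoeff‖) (u : Fin 2 → ℂ) (hu : ∀ i, ‖u i‖ = 1)
    (h12 : 2 * exp (-ℓ) ≤ ‖u 0 - u 1‖) (hGr : ∀ i, ∀ α ∈ G.roots, exp (-ℓ) ≤ ‖α - u i‖)
    (hs : ∀ i j α, ‖α - u i‖ ≤ exp (-W j) → ‖(G * f).eval α‖ ≤ exp (-psi W cc (W j)) ∧
      ‖g.eval α‖ ≤ exp (-psi W cc (W j))) :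
    ‖resultant f g f.natDegree D‖ ≤ exp (2 * D * H + D ^ 2 + (∑ k, cc k) * (3 * D * ℓ + 2 * J) -
      2 * ∑ k, cc k * psi W cc (W k)) := by
  set θ : Fin 2 → ℂ → ℝ := fun i α => ∑ k, cc k * mm (W k) ‖α - u i‖ with hθ
  set Cs := ∑ k, cc k with hCs
  have hCs0 : 0 ≤ Cs := Finset.sum_nonneg fun k _ => hc k
  have h1 : ∀ i α, ‖g.eval α‖ ≤ exp (H + D - θ i α) * max 1 ‖α‖ ^ D := by
    intro i α
    rcases le_total ‖α - u i‖ 1 with h | h
    · refine (profile hW g (u i) (H := H + D) (by positivity) (fun β hβ => ?_)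
        (fun j α h => (hs i j α h).2) h).trans
        (le_mul_of_one_le_right (exp_pos _).le (one_le_pow₀ (le_max_left _ _)))
      refine (hg' β).trans ?_
      have h2 : max 1 ‖β‖ ≤ exp 1 := by
        have := norm_sub_norm_le β (u i)
        have h3 := exp_one_gt_d9
        rw [hu i] at this
        exact max_le (by linarith) (by linarith)
      rw [exp_add, ← mul_one (D : ℝ), exp_nat_mul]
      gcongr
    · refine (hg' α).trans ?_
      have h2 : θ i α ≤ 0 := Finset.sum_nonpos fun k _ =>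
        mul_nonpos_of_nonneg_of_nonpos (hc k) (mm_le le_rfl (by simpa using h))
      gcongr
      linarith [Nat.cast_nonneg (α := ℝ) D]
  have h2 : ∀ i α, exp (-ℓ) ≤ ‖α - u i‖ → θ i α ≤ Cs * ℓ := fun i α h => by
    rw [hCs, Finset.sum_mul]
    exact Finset.sum_le_sum fun k _ => mul_le_mul_of_nonneg_left (mm_le hℓ h) (hc k)
  have h3 : ∀ α, ‖g.eval α‖ ≤ exp (H + D + Cs * ℓ - (θ 0 α + θ 1 α)) * max 1 ‖α‖ ^ D := by
    intro α
    by_cases h : exp (-ℓ) ≤ ‖α - u 0‖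
    · refine (h1 1 α).trans ?_
      gcongr ?_ * _
      exact exp_le_exp.2 (by linarith [h2 0 α h])
    · have h' : exp (-ℓ) ≤ ‖α - u 1‖ := by
        have := norm_sub_le_norm_sub_add_norm_sub (u 0) α (u 1)
        rw [norm_sub_rev (u 0) α] at this
        linarith [not_le.1 h]
      refine (h1 0 α).trans ?_
      gcongr ?_ * _
      exact exp_le_exp.2 (by linarith [h2 1 α h'])
  refine (res_le hG hf hf0 hg (by positivity) hf' _ h3).trans (exp_le_exp.2 ?_)
  have h4 : ∀ i, ∑ k, cc k * psi W cc (W k) - Cs * (J + D * ℓ) ≤ (f.roots.map (θ i)).sum := by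
    intro i
    simp only [hθ]
    have e : (f.roots.map fun α => ∑ k, cc k * mm (W k) ‖α - u i‖).sum =
        ∑ k, (f.roots.map fun α => cc k * mm (W k) ‖α - u i‖).sum :=
      Multiset.sum_map_sum_map _ _
    rw [e, hCs, Finset.sum_mul, ← Finset.sum_sub_distrib]
    refine Finset.sum_le_sum fun k _ => ?_
    rw [Multiset.sum_map_mul_left, ← mul_sub]
    refine mul_le_mul_of_nonneg_left ?_ (hc k)
    linarith [roots_near hG hf hf0 hℓ hJ (hGr i) fun α h => (hs i k α h).1]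
  rw [Multiset.sum_map_add]
  linarith [h4 0, h4 1]

end Pool.Agent.P.MP_26ad15_nt.Q
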