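import Pool.Agent.P.MP_26ad15_nt.Q.P
import Pool.Agent.P.MP_26ad15_nt.Q.R1

/-! Sums over boxes, the nodes of the profile, numerical inequalities. -/

namespace Pool.Agent.P.MP_26ad15_nt.Q

open Real

theorem sum_sq_Icc (X : ℕ) :
    3 * ∑ i ∈ Finset.Icc (-(X : ℤ)) X, i ^ 2 = X * (X + 1) * (2 * X + 1) := by
  induction X with
  | zero => simp
  | succ X ih =>
    have e : Finset.Icc (-((X + 1 : ℕ) : ℤ)) ((X + 1 : ℕ) : ℤ) =
        insert (-((X : ℤ) + 1)) (insert ((X : ℤ) + 1) (Finset.Icc (-(X : ℤ)) X)) := by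
      ext i
      simp only [Finset.mem_Icc, Finset.mem_insert]
      omega
    rw [e, Finset.sum_insert (by simp only [Finset.mem_Icc, Finset.mem_insert]; omega),
      Finset.sum_insert (by simp only [Finset.mem_Icc]; omega)]
    push_cast
    linear_combination ih

theorem sum_sq_idx (X Y L : ℕ) (a b : ℤ) :
    3 * ∑ x ∈ idx X Y L, (a * x.1.1 ^ 2 + b * x.1.2 ^ 2) =
      (2 * X + 1) * (2 * Y + 1) * L * (a * (X * (X + 1)) + b * (Y * (Y + 1))) := by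
  have h : ∀ Z : ℕ, ((Finset.Icc (-(Z : ℤ)) Z).card : ℤ) = 2 * Z + 1 := fun Z => by
    rw [Int.card_Icc]
    omega
  simp only [idx, box, Finset.sum_product, Finset.sum_const, Finset.card_range, nsmul_eq_mul,
    Finset.sum_add_distrib, ← Finset.mul_sum, mul_add, h]
  linear_combination (L * a * (2 * Y + 1)) * sum_sq_Icc X + (L * b * (2 * X + 1)) * sum_sq_Icc Y

theorem sum_ord_idx (X Y L : ℕ) :
    2 * ∑ x ∈ idx X Y L, x.2 ≤ (2 * X + 1) * (2 * Y + 1) * L ^ 2 := by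
  have h := Finset.sum_range_id_mul_two L
  have h2 : 2 * ∑ i ∈ Finset.range L, i ≤ L ^ 2 := by
    rw [mul_comm, h, sq]
    exact Nat.mul_le_mul_left _ (Nat.sub_le _ _)
  rw [idx, Finset.sum_product]
  simp only [Finset.sum_const, card_box, smul_eq_mul]
  rw [mul_left_comm]
  exact Nat.mul_le_mul_left _ h2

theorem sum_emb_le {ι M : Type*} [Fintype ι] [AddCommMonoid M] [PartialOrder M]
    [IsOrderedAddMonoid M] {S : Finset Ix} (ρ : ι ↪ S) (f : Ix → M) (hf : ∀ x, 0 ≤ f x) :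
    ∑ i, f (ρ i) ≤ ∑ x ∈ S, f x := by
  classical
  rw [← Finset.sum_coe_sort S, ← Finset.sum_map Finset.univ ρ fun x : S => f x]
  exact Finset.sum_le_sum_of_subset_of_nonneg (Finset.subset_univ _) fun x _ _ => hf x

theorem norm_mu_le {X Y : ℕ} {n K : ℝ} {b : ℂ} {μ : ℤ × ℤ} (hμ : μ ∈ box X Y) (hX : X ≤ n)
    (hY : Y ≤ 5 * n) (hb : ‖b‖ ≤ K) (hK : 1 ≤ K) : ‖mu b μ‖ ≤ 6 * K * n := by
  obtain ⟨h1, h2⟩ := mem_box.1 hμ
  have h1' : |(μ.1 : ℝ)| ≤ X := by exact_mod_cast h1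
  have h2' : |(μ.2 : ℝ)| ≤ Y := by exact_mod_cast h2
  have hn : 0 ≤ n := (Nat.cast_nonneg X).trans hX
  refine (norm_add_le _ _).trans ?_
  rw [norm_mul, Complex.norm_intCast, Complex.norm_intCast]
  have h3 : |(μ.2 : ℝ)| * ‖b‖ ≤ 5 * n * K := by gcongr; linarith
  nlinarith

theorem norm_pt_le {X Y c : ℕ} {n K : ℝ} {b : ℂ} {w : ℤ × ℤ} (hw : w ∈ box X Y)
    (hX : X ≤ 5 * n) (hY : Y ≤ 2 * n) (hb : ‖b‖ ≤ K) (hK : 1 ≤ K) (hc : 0 < c) :
    ‖pt c b w‖ ≤ 7 * c * K * n := by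
  obtain ⟨h1, h2⟩ := mem_box.1 hw
  have h1' : |(w.1 : ℝ)| ≤ X := by exact_mod_cast h1
  have h2' : |(w.2 : ℝ)| ≤ Y := by exact_mod_cast h2
  have hn : 0 ≤ n := by linarith [Nat.cast_nonneg (α := ℝ) X]
  have hc' : (1 : ℝ) ≤ c := by exact_mod_cast hc
  refine (norm_sub_le _ _).trans ?_
  rw [norm_mul, norm_mul, Complex.norm_intCast, Complex.norm_intCast, Int.cast_natCast,
    Complex.norm_natCast]
  have h3 : |(w.2 : ℝ)| * (c * ‖b‖) ≤ 2 * n * (c * K) := by gcongr; linarith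
  have h4 : 1 ≤ c * K := one_le_mul_of_one_le_of_one_le hc' hK
  nlinarith

/-- radii -/
noncomputable def vv : Fin 7 → ℝ := ![1 / 20000, 1 / 2500, 1 / 300, 1 / 60, 1 / 15, 1 / 5, 3 / 4]

/-- levels -/
noncomputable def xx : Fin 7 → ℝ := ![48, 24, 11, 6, 7 / 2, 13 / 6, 10 / 9]

/-- slopes -/
noncomputable def gg : Fin 7 → ℝ := ![21, 8, 17 / 5, 83 / 50, 17 / 20, 14 / 25, 71 / 200]

theorem vv_bd (j : Fin 7) : 1 / 20000 ≤ vv j ∧ vv j ≤ 1 := by
  fin_cases j <;> simp [vv] <;> norm_num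

/-- integer bounds of the levels -/
def k0 : Fin 7 → ℕ := ![48, 24, 11, 6, 4, 3, 2]

theorem xx_le (j : Fin 7) : xx j ≤ k0 j ∧ k0 j ≤ 48 := by
  fin_cases j <;> simp [xx, k0] <;> norm_num

theorem Gf0 : Gf 48 48 = 240100 := by norm_num [Gf, Finset.sum_range_succ]
theorem Gf1 : Gf 24 24 = 16250 := by norm_num [Gf, Finset.sum_range_succ]
theorem Gf2 : Gf 11 11 = 858 := by norm_num [Gf, Finset.sum_range_succ]
theorem Gf3 : Gf 6 6 = 98 := by norm_num [Gf, Finset.sum_range_succ]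
theorem Gf4 : Gf (7 / 2) 4 = 65 / 4 := by norm_num [Gf, Finset.sum_range_succ]
theorem Gf5 : Gf (13 / 6) 3 = 15 / 4 := by norm_num [Gf, Finset.sum_range_succ]
theorem Gf6 : Gf (10 / 9) 2 = 17 / 27 := by norm_num [Gf, Finset.sum_range_succ]

theorem gg_nonneg (j : Fin 7) : 0 ≤ gg j := by
  fin_cases j <;> simp [gg] <;> norm_num

theorem sum_gg : ∑ k, gg k ≤ 36 := by
  simp [Fin.sum_univ_seven, gg]
  norm_num

theorem node_ineq (j : Fin 7) :
    psi vv gg (vv j) + 8 / 10 ^ 6 ≤ xx j * vv j - Gf (xx j) (k0 j) * vv j ^ 2 := by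
  fin_cases j <;>
    simp [psi, Fin.sum_univ_seven, vv, xx, gg, k0, Gf0, Gf1, Gf2, Gf3, Gf4, Gf5, Gf6] <;> norm_num

theorem sum_psi : 77 / 100 ≤ ∑ k, gg k * psi vv gg (vv k) := by
  simp [psi, Fin.sum_univ_seven, vv, gg]
  norm_num

theorem psi_scale {ι : Type*} [Fintype ι] (v g : ι → ℝ) {a : ℝ} (ha : 0 ≤ a) (b x : ℝ) :
    psi (fun k => v k * a) (fun k => g k * b) (x * a) = a * b * psi v g x := by
  simp only [psi, Finset.mul_sum, ← min_mul_of_nonneg _ _ ha]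
  exact Finset.sum_congr rfl fun k _ => by ring

end Pool.Agent.P.MP_26ad15_nt.Q
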