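import Pool.Agent.P.MP_26ad15_nt.Q.D

/-! Degree, value and size of the determinant polynomial. -/

namespace Pool.Agent.P.MP_26ad15_nt.Q

open Polynomial

theorem abs_kk_le {c : ℤ} (hc : 0 ≤ c) (μ w : ℤ × ℤ) :
    2 * |kk c μ w| ≤ (μ.2 ^ 2 + c * μ.1 ^ 2) + (w.1 ^ 2 + c * w.2 ^ 2) := by
  have h1 := mul_nonneg hc (sq_nonneg (μ.1 - w.2))
  have h2 := mul_nonneg hc (sq_nonneg (μ.1 + w.2))
  have h3 := sq_nonneg (μ.2 - w.1)
  have h4 := sq_nonneg (μ.2 + w.1)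
  unfold kk
  rcases abs_cases (μ.2 * w.1 + c * μ.1 * w.2) with h | h <;> rw [h.1] <;> nlinarith

variable {R ι : Type*} [CommRing R] [Fintype ι] [DecidableEq ι]

/-- the degree condition -/
def DegOK (c : ℤ) (D : ℕ) (r s : ι → Ix) : Prop :=
  ∑ i, ((s i).1.2 ^ 2 + c * (s i).1.1 ^ 2) + ∑ i, ((r i).1.1 ^ 2 + c * (r i).1.2 ^ 2) +
    2 * ∑ i, ((r i).2 : ℤ) ≤ 2 * D

theorem expo_bounds {c : ℤ} (hc : 0 ≤ c) {D : ℕ} {r s : ι → Ix} (h : DegOK c D r s)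
    (π : Equiv.Perm ι) :
    0 ≤ (D : ℤ) + ∑ i, (kk c (s i).1 (r (π i)).1 - (r (π i)).2) ∧
      (D : ℤ) + ∑ i, (kk c (s i).1 (r (π i)).1 - (r (π i)).2) +
        2 * ∑ i, ((r i).2 : ℤ) ≤ 2 * D := by
  have h1 : 2 * ∑ i, |kk c (s i).1 (r (π i)).1| ≤ ∑ i, ((s i).1.2 ^ 2 + c * (s i).1.1 ^ 2) +
      ∑ i, ((r i).1.1 ^ 2 + c * (r i).1.2 ^ 2) := by
    rw [← Equiv.sum_comp π fun i => (r i).1.1 ^ 2 + c * (r i).1.2 ^ 2, ← Finset.sum_add_distrib,
      Finset.mul_sum]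
    exact Finset.sum_le_sum fun i _ => abs_kk_le hc _ _
  have h2 := Finset.abs_sum_le_sum_abs (fun i => kk c (s i).1 (r (π i)).1) Finset.univ
  rw [Finset.sum_sub_distrib, Equiv.sum_comp π fun i => ((r i).2 : ℤ)]
  unfold DegOK at h
  have h3 := abs_le.1 h2
  constructor <;> linarith [h3.1, h3.2]

theorem natDegree_pe (c p q : ℤ) (e : ℕ) (a β : R) (r s : Ix) :
    (pe c p q e a β r s).natDegree ≤ 2 * r.2 := by
  unfold pe ent
  refine (natDegree_C_mul_le _ _).trans (natDegree_sum_le_of_forall_le _ _ fun j hj => ?_)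
  have hj' : j ≤ r.2 := Nat.lt_succ_iff.1 (Finset.mem_range.1 hj)
  have h1 : (C (a * (c * s.1.1 + s.1.2 * β)) * (X ^ 2 - 1) : R[X]).natDegree ≤ 2 := by
    compute_degree
  have h2 : (C (e : R) * X : R[X]).natDegree ≤ 1 := by compute_degree
  refine natDegree_mul_le.trans ?_
  have h3 : (C (r.1.1 - r.1.2 * (c * p - β)) ^ (s.2 - j) : R[X]).natDegree = 0 := by
    rw [← C_pow, natDegree_C]
  rw [h3, add_zero]
  refine natDegree_mul_le.trans ?_
  refine (add_le_add natDegree_mul_le natDegree_pow_le).trans ?_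
  rw [natDegree_natCast, zero_add]
  have h4 := (natDegree_pow_le (n := r.2 - j)
    (p := (C (a * (c * s.1.1 + s.1.2 * β)) * (X ^ 2 - 1) : R[X]))).trans
      (Nat.mul_le_mul_left _ h1)
  have h5 := Nat.mul_le_mul_left j h2
  omega

theorem natDegree_Pm {c : ℤ} (hc : 0 ≤ c) (p q : ℤ) (e : ℕ) (a β : R) {D : ℕ} {r s : ι → Ix}
    (h : DegOK c D r s) : (Pm c p q e a β D r s).natDegree ≤ 2 * D := by
  unfold Pm
  refine natDegree_sum_le_of_forall_le _ _ fun π _ => (natDegree_C_mul_le _ _).trans ?_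
  refine natDegree_mul_le.trans ?_
  obtain ⟨h1, h2⟩ := expo_bounds hc h π
  have h3 : (∏ i, pe c p q e a β (r (π i)) (s i)).natDegree ≤ 2 * ∑ i, (r i).2 := by
    refine (natDegree_prod_le _ _).trans ?_
    rw [← Equiv.sum_comp π fun i => (r i).2, Finset.mul_sum]
    exact Finset.sum_le_sum fun i _ => natDegree_pe _ _ _ _ _ _ _ _
  have h4 := natDegree_X_pow_le (R := R)
    ((D : ℤ) + ∑ i, (kk c (s i).1 (r (π i)).1 - (r (π i)).2)).toNat
  have h5 : ((∑ i, (r i).2 : ℕ) : ℤ) = ∑ i, ((r i).2 : ℤ) := by push_cast; rfl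
  omega

theorem eval₂_pe (φ : R →+* ℂ) (α : ℂ) (c p q : ℤ) (e : ℕ) (a β : R) (r s : Ix) :
    (pe c p q e a β r s).eval₂ φ α = (-1) ^ cz c p q s.1 r.1 *
      ent r.2 s.2 (φ (a * (c * s.1.1 + s.1.2 * β)) * (α ^ 2 - 1)) (e * α)
        (φ (r.1.1 - r.1.2 * (c * p - β))) := by
  have h := map_ent (eval₂RingHom φ α) r.2 s.2
    (C (a * (c * s.1.1 + s.1.2 * β)) * (X ^ 2 - 1)) (C (e : R) * X)
      (C (r.1.1 - r.1.2 * (c * p - β)))
  simp only [coe_eval₂RingHom, eval₂_mul, eval₂_C, eval₂_sub, eval₂_X_pow, eval₂_one,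
    eval₂_X] at h
  rw [pe, eval₂_mul, eval₂_C, h, map_intCast, Int.cast_negOnePow, map_natCast]

theorem eval₂_Pm (φ : R →+* ℂ) {α : ℂ} (hα : α ≠ 0) {c : ℤ} (hc : 0 ≤ c) (p q : ℤ) (e : ℕ)
    {a β : R} {b A : ℂ} (hβ : φ β = c * b) (ha : φ a * c = e * A) {D : ℕ} {r s : ι → Ix}
    (h : DegOK c D r s) : (Pm c p q e a β D r s).eval₂ φ α =
      α ^ D * (e : ℂ) ^ (∑ i, (r i).2) *
        (Matrix.of fun i j => me c p q b A α (r i) (s j)).det := by
  have hpe : ∀ r s : Ix, (pe c p q e a β r s).eval₂ φ α * α ^ (kk c s.1 r.1 - r.2) =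
      (e : ℂ) ^ r.2 * me c p q b A α r s := by
    intro r s
    have h1 : φ (a * (c * s.1.1 + s.1.2 * β)) * (α ^ 2 - 1) =
        (e * α) * (A * (α - α⁻¹) * mu b s.1) := by
      simp only [map_mul, map_add, map_intCast, hβ, mu]
      have : (e : ℂ) * α * (A * (α - α⁻¹) * (s.1.1 + s.1.2 * b)) =
          (e * A) * (α ^ 2 - 1) * (s.1.1 + s.1.2 * b) := by field_simp
      rw [this, ← ha]
      ring
    have h2 : φ (r.1.1 - r.1.2 * (c * p - β)) = pt c (p - b) r.1 := by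
      simp only [map_mul, map_sub, map_intCast, hβ, pt]
      ring
    rw [eval₂_pe, h1, h2, ent_smul, me, BB, zpow_sub₀ hα, zpow_natCast, mul_pow]
    field_simp
  rw [Pm, eval₂_finsetSum, Matrix.det_apply, Finset.mul_sum]
  refine Finset.sum_congr rfl fun π _ => ?_
  obtain ⟨h1, -⟩ := expo_bounds hc h π
  have h3 : α ^ (∑ i, (kk c (s i).1 (r (π i)).1 - (r (π i)).2)) =
      ∏ i, α ^ (kk c (s i).1 (r (π i)).1 - (r (π i)).2) := by
    induction (Finset.univ : Finset ι) using Finset.induction_on with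
    | empty => simp
    | insert x S hx ih => rw [Finset.sum_insert hx, Finset.prod_insert hx, zpow_add₀ hα, ih]
  rw [eval₂_mul, eval₂_C, eval₂_mul, eval₂_X_pow, eval₂_finsetProd, map_intCast,
    ← zpow_natCast, Int.toNat_of_nonneg h1, zpow_add₀ hα, h3, mul_assoc (α ^ (D : ℤ)),
    ← Finset.prod_mul_distrib, Finset.prod_congr rfl fun i _ => (mul_comm _ _).trans (hpe _ _),
    Finset.prod_mul_distrib, Finset.prod_pow_eq_pow_sum, Equiv.sum_comp π fun i => (r i).2,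
    zpow_natCast, Units.smul_def, zsmul_eq_mul]
  simp only [Matrix.of_apply]
  ring

theorem norm_ent_le {t l : ℕ} {x y w : ℂ} {K n m : ℝ} (hK : 1 ≤ K) (hn : 1 ≤ n) (hm : 0 ≤ m)
    (hx : ‖x‖ ≤ K * n * m) (hy : ‖y‖ ≤ K * m) (hw : ‖w‖ ≤ K * n) (hl : (l : ℝ) ≤ n ^ 2) :
    ‖ent t l x y w‖ ≤ (2 * K * n) ^ (t + l) * m ^ t := by
  have hKn : 1 ≤ K * n := one_le_mul_of_one_le_of_one_le hK hn
  have key : ∀ j ∈ Finset.range (t + 1),
      ‖((t.choose j * l.descFactorial j : ℕ) : ℂ) * x ^ (t - j) * y ^ j * w ^ (l - j)‖ ≤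
        (t.choose j : ℝ) * ((K * n) ^ (t + l) * m ^ t) := by
    intro j hj
    have hj' : j ≤ t := Nat.lt_succ_iff.1 (Finset.mem_range.1 hj)
    by_cases hjl : l < j
    · rw [Nat.descFactorial_eq_zero_iff_lt.2 hjl]
      simp only [mul_zero, Nat.cast_zero, zero_mul, norm_zero]
      positivity
    obtain ⟨t', rfl⟩ := Nat.exists_eq_add_of_le hj'
    obtain ⟨l', rfl⟩ := Nat.exists_eq_add_of_le (not_lt.1 hjl)
    have h1 : (((j + l').descFactorial j : ℕ) : ℝ) ≤ (n ^ 2) ^ j := by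
      refine le_trans ?_ (pow_le_pow_left₀ (Nat.cast_nonneg _) hl j)
      exact_mod_cast Nat.descFactorial_le_pow _ _
    simp only [norm_mul, norm_pow, Complex.norm_natCast, Nat.add_sub_cancel_left, Nat.cast_mul]
    calc ((j + t').choose j : ℝ) * ((j + l').descFactorial j : ℕ) * ‖x‖ ^ t' * ‖y‖ ^ j * ‖w‖ ^ l'
        ≤ ((j + t').choose j : ℝ) * (n ^ 2) ^ j * (K * n * m) ^ t' * (K * m) ^ j *
          (K * n) ^ l' := by gcongr
      _ = ((j + t').choose j : ℝ) * ((K * n) ^ (j + t' + (j + l')) * m ^ (j + t')) / K ^ j := by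
          have : K ^ j ≠ 0 := by positivity
          field_simp
          simp only [mul_pow, pow_add]
          ring
      _ ≤ _ := div_le_self (by positivity) (one_le_pow₀ hK)
  refine (norm_sum_le _ _).trans ((Finset.sum_le_sum key).trans ?_)
  rw [← Finset.sum_mul, ← Nat.cast_sum, Nat.sum_range_choose, mul_assoc 2 K, mul_pow 2,
    mul_assoc]
  gcongr
  push_cast
  exact pow_le_pow_right₀ (by norm_num) (Nat.le_add_right _ _)

theorem norm_Pm_le (φ : R →+* ℂ) (α : ℂ) {c : ℤ} (hc : 0 ≤ c) (p q : ℤ) {e : ℕ}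
    {a β : R} {D : ℕ} {r s : ι → Ix} (h : DegOK c D r s) {K n : ℝ} (hK : 1 ≤ K) (hn : 1 ≤ n)
    (he : (e : ℝ) ≤ K) (hs : ∀ i, 2 * ‖φ (a * (c * (s i).1.1 + (s i).1.2 * β))‖ ≤ K * n)
    (hr : ∀ i, ‖φ ((r i).1.1 - (r i).1.2 * (c * p - β))‖ ≤ K * n)
    (hl : ∀ i, ((s i).2 : ℝ) ≤ n ^ 2) :
    ‖(Pm c p q e a β D r s).eval₂ φ α‖ ≤ (Fintype.card ι).factorial *
      (2 * K * n) ^ (∑ i, (r i).2 + ∑ i, (s i).2) * max 1 ‖α‖ ^ (2 * D) := by
  set m := max 1 ‖α‖ with hm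
  have hm1 : 1 ≤ m := le_max_left _ _
  have hm2 : ‖α‖ ≤ m := le_max_right _ _
  have hm3 : m ≤ m ^ 2 := le_self_pow₀ hm1 two_ne_zero
  have hpe : ∀ i j, ‖(pe c p q e a β (r i) (s j)).eval₂ φ α‖ ≤
      (2 * K * n) ^ ((r i).2 + (s j).2) * (m ^ 2) ^ (r i).2 := by
    intro i j
    rw [eval₂_pe, norm_mul, norm_zpow, norm_neg, norm_one, one_zpow, one_mul]
    refine norm_ent_le hK hn (by positivity) ?_ ?_ (hr i) (hl j)
    · have h1 : ‖α ^ 2 - 1‖ ≤ 2 * m ^ 2 := by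
        refine (norm_sub_le _ _).trans ?_
        rw [norm_pow, norm_one]
        have := pow_le_pow_left₀ (norm_nonneg α) hm2 2
        linarith
      rw [norm_mul]
      calc _ ≤ ‖φ (a * (c * (s j).1.1 + (s j).1.2 * β))‖ * (2 * m ^ 2) := by gcongr
        _ = 2 * ‖φ (a * (c * (s j).1.1 + (s j).1.2 * β))‖ * m ^ 2 := by ring
        _ ≤ _ := mul_le_mul_of_nonneg_right (hs j) (by positivity)
    · rw [norm_mul, Complex.norm_natCast]
      gcongr
      exact hm2.trans hm3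
  rw [Pm, eval₂_finsetSum]
  refine (norm_sum_le _ _).trans ?_
  rw [mul_assoc, ← Fintype.card_perm, ← Finset.card_univ, ← nsmul_eq_mul]
  refine Finset.sum_le_card_nsmul _ _ _ fun π _ => ?_
  obtain ⟨h1, h2⟩ := expo_bounds hc h π
  have hs1 : ‖φ (((Equiv.Perm.sign π : ℤˣ) : ℤ) : R)‖ = 1 := by
    rw [map_intCast]
    rcases Int.units_eq_one_or (Equiv.Perm.sign π) with h | h <;> simp [h]
  rw [eval₂_mul, eval₂_C, eval₂_mul, eval₂_X_pow, eval₂_finsetProd, norm_mul, hs1, one_mul,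
    norm_mul, norm_pow, norm_prod]
  set E := ((D : ℤ) + ∑ i, (kk c (s i).1 (r (π i)).1 - (r (π i)).2)).toNat with hE
  have h5 : ((∑ i, (r i).2 : ℕ) : ℤ) = ∑ i, ((r i).2 : ℤ) := by push_cast; rfl
  have hE2 : E + 2 * ∑ i, (r i).2 ≤ 2 * D := by omega
  calc ‖α‖ ^ E * ∏ i, ‖(pe c p q e a β (r (π i)) (s i)).eval₂ φ α‖
      ≤ m ^ E * ∏ i, ((2 * K * n) ^ ((r (π i)).2 + (s i).2) * (m ^ 2) ^ (r (π i)).2) := by
        gcongr with i
        exact hpe _ _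
    _ = (2 * K * n) ^ (∑ i, (r i).2 + ∑ i, (s i).2) * m ^ (E + 2 * ∑ i, (r i).2) := by
        rw [Finset.prod_mul_distrib, Finset.prod_pow_eq_pow_sum, Finset.prod_pow_eq_pow_sum,
          Finset.sum_add_distrib, Equiv.sum_comp π fun i => (r i).2, ← pow_mul, pow_add m]
        ring
    _ ≤ _ := by gcongr

end Pool.Agent.P.MP_26ad15_nt.Q
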