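import Pool.Agent.P.MP_26ad15_nt.Q.D

/-! Generalised Wronskians: order of vanishing, degree, top coefficient. -/

namespace Pool.Agent.P.MP_26ad15_nt.Q

open Polynomial
open scoped PowerSeries

/-- `exp (x ζ)` -/
noncomputable def Ex (x : ℂ) : ℂ⟦X⟧ := PowerSeries.mk fun n => x ^ n / n.factorial

theorem d_Ex (x : ℂ) : PowerSeries.derivative ℂ (Ex x) = x • Ex x := by
  ext n
  have : ((n : ℂ) + 1) ≠ 0 := by exact_mod_cast n.succ_ne_zero
  simp only [PowerSeries.coeff_derivative, Ex, PowerSeries.coeff_mk, map_smul, smul_eq_mul,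
    Nat.factorial_succ]
  push_cast
  field_simp
  ring

theorem cc_Ex (x : ℂ) : PowerSeries.constantCoeff (Ex x) = 1 := by
  rw [← PowerSeries.coeff_zero_eq_constantCoeff_apply]
  simp [Ex]

theorem cc_aeval (y : ℂ⟦X⟧) (f : ℂ[X]) :
    PowerSeries.constantCoeff (aeval y f) = f.eval (PowerSeries.constantCoeff y) := by
  induction f using Polynomial.induction_on' with
  | add p q hp hq => simp [hp, hq]
  | monomial n a => simp [aeval_monomial]

theorem d_aeval {v : ℂ[X]} {y : ℂ⟦X⟧} (hy : PowerSeries.derivative ℂ y = aeval y v) (x : ℂ)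
    (t : ℕ) (f : ℂ[X]) : (PowerSeries.derivative ℂ)^[t] (aeval y f * Ex x) =
      aeval y ((Dop v x ^ t) f) * Ex x := by
  induction t generalizing f with
  | zero => simp
  | succ t ih =>
    rw [Function.iterate_succ_apply, pow_succ, Module.End.mul_apply, ← ih]
    congr 1
    rw [Derivation.leibniz, Derivation.map_aeval, hy, d_Ex, Dop_apply]
    simp only [smul_eq_mul, map_add, map_mul, aeval_C, Algebra.smul_def]
    ring

theorem pow_dvd_of_aeval {w : ℂ} {y : ℂ⟦X⟧} (hy0 : PowerSeries.constantCoeff y = w)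
    (hy1 : PowerSeries.coeff 1 y ≠ 0) {f : ℂ[X]} {K : ℕ}
    (h : (PowerSeries.X : ℂ⟦X⟧) ^ K ∣ aeval y f) : (X - C w) ^ K ∣ f := by
  by_cases hf : f = 0
  · simp [hf]
  obtain ⟨g, hg, hg'⟩ := exists_eq_pow_rootMultiplicity_mul_and_not_dvd f hf w
  obtain ⟨z, hz⟩ : (PowerSeries.X : ℂ⟦X⟧) ∣ aeval y (X - C w) := by
    rw [PowerSeries.X_dvd_iff, cc_aeval, hy0]
    simp
  have hz0 : PowerSeries.constantCoeff z ≠ 0 := by
    have := congrArg (PowerSeries.coeff 1) hz
    simp only [map_sub, aeval_X, aeval_C, PowerSeries.coeff_succ_X_mul,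
      PowerSeries.coeff_zero_eq_constantCoeff_apply] at this
    rw [← this]
    simpa [PowerSeries.algebraMap_apply, PowerSeries.coeff_C] using hy1
  have hzu : IsUnit z := PowerSeries.isUnit_iff_constantCoeff.2 hz0.isUnit
  have hgu : IsUnit (aeval y g) := by
    rw [PowerSeries.isUnit_iff_constantCoeff, cc_aeval, hy0]
    exact Ne.isUnit fun h0 => hg' (dvd_iff_isRoot.2 h0)
  rw [hg, map_mul, map_pow, hz, mul_pow, hgu.dvd_mul_right, (hzu.pow _).dvd_mul_right,
    pow_dvd_pow_iff PowerSeries.X_ne_zero PowerSeries.X_prime.not_isUnit] at h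
  exact (pow_dvd_pow _ h).trans (pow_rootMultiplicity_dvd f w)

theorem dvd_det {S : Type*} [Fintype S] [DecidableEq S] [Nonempty S] {v : ℂ[X]} {w : ℂ}
    {y : ℂ⟦X⟧} (hy0 : PowerSeries.constantCoeff y = w)
    (hy : PowerSeries.derivative ℂ y = aeval y v) (hv : v.eval w ≠ 0) (A : Matrix S S ℂ[X])
    (x cc : S → ℂ) (hc : ∀ μ, cc μ ≠ 0) (K : ℕ)
    (h : ∀ r, ∀ t < K, ∑ μ, cc μ * ((Dop v (x μ) ^ t) (A r μ)).eval w = 0) :
    (X - C w) ^ K ∣ A.det := by
  have hy1 : PowerSeries.coeff 1 y ≠ 0 := by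
    have := congrArg PowerSeries.constantCoeff hy
    rw [cc_aeval, hy0, ← PowerSeries.coeff_zero_eq_constantCoeff_apply,
      PowerSeries.coeff_derivative] at this
    simp only [zero_add, Nat.cast_zero, mul_one] at this
    rwa [this]
  refine pow_dvd_of_aeval hy0 hy1 ?_
  set A' : Matrix S S ℂ⟦X⟧ := (aeval y : ℂ[X] →ₐ[ℂ] ℂ⟦X⟧).mapMatrix A with hA'
  set u : S → ℂ⟦X⟧ := fun μ => cc μ • Ex (x μ) with hu
  have h1 : ∀ r, (PowerSeries.X : ℂ⟦X⟧) ^ K ∣ A'.mulVec u r := by
    intro r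
    rw [PowerSeries.X_pow_dvd_iff]
    intro t ht
    have e : A'.mulVec u r = ∑ μ, cc μ • (aeval y (A r μ) * Ex (x μ)) := by
      simp [Matrix.mulVec, dotProduct, hA', hu]
    have h2 := PowerSeries.constantCoeff_iterate_derivative (A'.mulVec u r) t
    have e2 : (PowerSeries.derivative ℂ)^[t] (∑ μ, cc μ • (aeval y (A r μ) * Ex (x μ))) =
        ∑ μ, cc μ • (PowerSeries.derivative ℂ)^[t] (aeval y (A r μ) * Ex (x μ)) := by
      have := map_sum ((PowerSeries.derivative ℂ).toLinearMap ^ t)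
        (fun μ => cc μ • (aeval y (A r μ) * Ex (x μ))) Finset.univ
      simp only [map_smul, Module.End.pow_apply] at this
      exact this
    rw [e, e2, ← e] at h2
    simp only [d_aeval hy, map_sum, PowerSeries.smul_eq_C_mul, map_mul,
      PowerSeries.constantCoeff_C, cc_aeval, hy0, cc_Ex, mul_one, h r t ht] at h2
    exact (mul_eq_zero.1 h2.symm).resolve_left (by exact_mod_cast t.factorial_ne_zero)
  obtain ⟨μ⟩ := ‹Nonempty S›
  have h2 : (A'.adjugate.mulVec (A'.mulVec u)) μ = A'.det * u μ := by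
    rw [Matrix.mulVec_mulVec, Matrix.adjugate_mul, Matrix.smul_mulVec, Matrix.one_mulVec]
    rfl
  have h3 : (PowerSeries.X : ℂ⟦X⟧) ^ K ∣ A'.det * u μ := by
    rw [← h2]
    exact Finset.dvd_sum fun r _ => (h1 r).mul_left _
  have h4 : IsUnit (u μ) := by
    rw [PowerSeries.isUnit_iff_constantCoeff, hu]
    simp only [PowerSeries.smul_eq_C_mul, map_mul, PowerSeries.constantCoeff_C, cc_Ex, mul_one]
    exact (hc μ).isUnit
  rwa [h4.dvd_mul_right, hA', ← AlgHom.map_det] at h3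

theorem card_mul_le {f : ℂ[X]} (hf : f ≠ 0) (F : Finset ℂ) (K : ℕ)
    (h : ∀ w ∈ F, (X - C w) ^ K ∣ f) : F.card * K ≤ f.natDegree := by
  have h1 : ∏ w ∈ F, (X - C w) ^ K ∣ f :=
    Finset.prod_dvd_of_coprime (fun a _ b _ hab =>
      (isCoprime_X_sub_C_of_isUnit_sub (sub_ne_zero.2 hab).isUnit).pow) h
  have h2 := natDegree_le_of_dvd h1 hf
  rw [natDegree_prod_of_monic _ _ fun w _ => (monic_X_sub_C w).pow K] at h2
  simpa using h2

theorem coeff_prod_top {S : Type*} (s : Finset S) (f : S → ℂ[X]) (d : S → ℕ)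
    (h : ∀ i, (f i).natDegree ≤ d i) :
    (∏ i ∈ s, f i).natDegree ≤ ∑ i ∈ s, d i ∧
      (∏ i ∈ s, f i).coeff (∑ i ∈ s, d i) = ∏ i ∈ s, (f i).coeff (d i) := by
  classical
  induction s using Finset.induction_on with
  | empty => simp
  | insert a s ha ih =>
    simp only [Finset.prod_insert ha, Finset.sum_insert ha]
    exact ⟨natDegree_mul_le.trans (add_le_add (h a) ih.1),
      by rw [coeff_mul_add_eq_of_natDegree_le (h a) ih.1, ih.2]⟩

theorem det_top {S : Type*} [Fintype S] [DecidableEq S] (A : Matrix S S ℂ[X]) (d : S → ℕ)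
    (h : ∀ r μ, (A r μ).natDegree ≤ d μ) : A.det.natDegree ≤ ∑ μ, d μ ∧
      A.det.coeff (∑ μ, d μ) = (Matrix.of fun r μ => (A r μ).coeff (d μ)).det := by
  rw [Matrix.det_apply, Matrix.det_apply]
  constructor
  · refine natDegree_sum_le_of_forall_le _ _ fun π _ => ?_
    rw [Units.smul_def]
    exact (natDegree_smul_le _ _).trans (coeff_prod_top _ _ d fun i => h _ _).1
  · rw [finsetSum_coeff]
    refine Finset.sum_congr rfl fun π _ => ?_
    rw [Units.smul_def, Units.smul_def, coeff_smul, (coeff_prod_top _ _ d fun i => h _ _).2]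
    rfl

theorem coeff_Dop_X (x : ℂ) (t n : ℕ) (f : ℂ[X]) :
    ((Dop X x ^ t) f).coeff n = (n + x) ^ t * f.coeff n := by
  induction t with
  | zero => simp
  | succ t ih =>
    rw [pow_succ', Module.End.mul_apply, Dop_apply, coeff_add, coeff_C_mul, pow_succ']
    cases n with
    | zero => simp [ih]; ring
    | succ n =>
      rw [coeff_X_mul, coeff_derivative, ih]
      push_cast
      ring

theorem Dop_X_monomial (x a : ℂ) (t n : ℕ) :
    (Dop X x ^ t) (monomial n a) = monomial n ((n + x) ^ t * a) := by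
  ext m
  rw [coeff_Dop_X, coeff_monomial, coeff_monomial]
  split_ifs with h
  · rw [h]
  · simp

theorem Dop_one_top (x : ℂ) (t : ℕ) {f : ℂ[X]} {d : ℕ} (h : f.natDegree ≤ d) :
    ((Dop 1 x ^ t) f).natDegree ≤ d ∧ ((Dop 1 x ^ t) f).coeff d = x ^ t * f.coeff d := by
  induction t with
  | zero => simpa using h
  | succ t ih =>
    rw [pow_succ', Module.End.mul_apply, Dop_apply, one_mul]
    refine ⟨(natDegree_add_le _ _).trans (max_le ((natDegree_derivative_le _).trans
      ((Nat.sub_le _ _).trans ih.1)) ((natDegree_C_mul_le _ _).trans ih.1)), ?_⟩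
    rw [coeff_add, coeff_derivative, coeff_eq_zero_of_natDegree_lt (Nat.lt_succ_of_le ih.1),
      coeff_C_mul, ih.2]
    ring

theorem Dop_one_taylor (x w : ℂ) (t : ℕ) (f : ℂ[X]) :
    (Dop 1 x ^ t) (taylor w f) = taylor w ((Dop 1 x ^ t) f) := by
  induction t with
  | zero => simp
  | succ t ih =>
    rw [pow_succ', Module.End.mul_apply, Module.End.mul_apply, ih, Dop_apply, Dop_apply]
    simp [taylor_apply, derivative_comp]

end Pool.Agent.P.MP_26ad15_nt.Q
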